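import Mathlib

/-!
# The τ-topology on ideal groups of `S_G^fs(N, M)`: definitions

`L` is a first-order language, `M` an `L`-structure, `N` an elementary extension of `M` given by an
elementary embedding `e : M ↪ₑ[L] N`, and `G` a group `0`-definable in `M`.
Formulas over `A` in the variables `x_0, …, x_{k-1}` are represented by `L`-formulas with free
variables in `A ⊕ Fin k`, where a variable `a ∈ A` is always interpreted by the element `a`
itself.
-/

open FirstOrder FirstOrder.Language Set Filter Topology Cardinal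

namespace Pool.Agent.H55.Tau

universe u v w

/-- `K` tuples of `M` are shattered by the partitioned formula `φ(x; y)`. -/
def Shattered {L : FirstOrder.Language.{u, v}} (M : Type w) [L.Structure M] {m n : ℕ}
    (φ : L.Formula (Fin m ⊕ Fin n)) (K : ℕ) : Prop :=
  ∃ a : Fin K → (Fin m → M), ∀ J : Set (Fin K), ∃ b : Fin n → M,
    ∀ i : Fin K, (φ.Realize (Sum.elim (a i) b) ↔ i ∈ J)

/-- The complete theory of `M` has NIP: for every partitioned formula `φ(x; y)` there is a `K` such
that no `K` tuples of `M` are shattered by `φ`. -/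
def IsNIP (L : FirstOrder.Language.{u, v}) (M : Type w) [L.Structure M] : Prop :=
  ∀ (m n : ℕ) (φ : L.Formula (Fin m ⊕ Fin n)), ∃ K : ℕ, ¬ Shattered M φ K

/-- `N` is `κ`-saturated: for every set `A ⊆ N` of fewer than `κ` elements, every finitely
satisfiable set of formulas over `A` in finitely many variables is satisfied in `N`. -/
def IsSaturated (L : FirstOrder.Language.{u, v}) (κ : Cardinal.{w}) (N : Type w)
    [L.Structure N] : Prop :=
  ∀ A : Set N, #A < κ → ∀ (n : ℕ) (p : Set (L.Formula (A ⊕ Fin n))),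
    (∀ p₀ : Finset (L.Formula (A ⊕ Fin n)), (∀ φ ∈ p₀, φ ∈ p) →
      ∃ x : Fin n → N, ∀ φ ∈ p₀, φ.Realize (Sum.elim (fun a : A => (a : N)) x)) →
    ∃ x : Fin n → N, ∀ φ ∈ p, φ.Realize (Sum.elim (fun a : A => (a : N)) x)

/-- A group `0`-definable in the structure `M`, on a set of `k`-tuples: the underlying set is
defined by the formula `dom` and the graph of the multiplication by the formula `mul`. -/
structure DefGroup (L : FirstOrder.Language.{u, v}) (M : Type w) [L.Structure M] (k : ℕ) where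
  dom : L.Formula (Fin k)
  mul : L.Formula (Fin k ⊕ (Fin k ⊕ Fin k))
  group : Group {x : Fin k → M // dom.Realize x}
  mul_iff : ∀ x y z : {x : Fin k → M // dom.Realize x},
    mul.Realize (Sum.elim x.1 (Sum.elim y.1 z.1)) ↔ group.mul x y = z

variable {L : FirstOrder.Language.{u, v}} {M N : Type w} [L.Structure M] [L.Structure N] {k : ℕ}

/-- `G(M)` -/
def DefGroup.Pt (G : DefGroup L M k) : Type w := {x : Fin k → M // G.dom.Realize x}

instance (G : DefGroup L M k) : Group G.Pt := G.group

/-- `S_G^fs(N, M)`: complete types over `N`, concentrated on `G`, finitely satisfiable in `M`. -/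
@[ext] structure SGfs (G : DefGroup L M k) (e : M ↪ₑ[L] N) where
  carrier : Set (L.Formula (N ⊕ Fin k))
  complete : ∀ φ : L.Formula (N ⊕ Fin k), φ ∈ carrier ∨ ∼φ ∈ carrier
  finSat : ∀ p₀ : Finset (L.Formula (N ⊕ Fin k)), (∀ φ ∈ p₀, φ ∈ carrier) →
    ∃ x : Fin k → M, ∀ φ ∈ p₀, φ.Realize (Sum.elim (fun n : N => n) (fun i => e (x i)))
  dom_mem : G.dom.relabel Sum.inr ∈ carrier

variable {G : DefGroup L M k} {e : M ↪ₑ[L] N}

/-- The usual topology on the space of types: generated by the sets `[φ] = {p : φ ∈ p}`. -/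
instance : TopologicalSpace (SGfs G e) :=
  TopologicalSpace.generateFrom {U | ∃ φ : L.Formula (N ⊕ Fin k), U = {p | φ ∈ p.carrier}}

/-- The tuple `a` of an elementary extension `j : N ↪ₑ[L] N'` realises the type `p` over `N`. -/
def SGfs.RealizedBy (p : SGfs G e) {N' : Type w} [L.Structure N'] (j : N ↪ₑ[L] N')
    (a : Fin k → N') : Prop :=
  ∀ φ ∈ p.carrier, φ.Realize (Sum.elim j a)

/-- `r = tp(ab/N)` for some `a ⊨ p`, `b ⊨ q` (in some elementary extension `N'` of `N`) such that
`tp(a/N,b)` is finitely satisfiable in `M`. -/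
def IsProd (p q r : SGfs G e) : Prop :=
  ∃ (N' : Type w) (_ : L.Structure N') (j : N ↪ₑ[L] N') (a b c : Fin k → N'),
    p.RealizedBy j a ∧ q.RealizedBy j b ∧
    (∀ θ : L.Formula ((N ⊕ Fin k) ⊕ Fin k), θ.Realize (Sum.elim (Sum.elim j b) a) →
      ∃ m : Fin k → M, θ.Realize (Sum.elim (Sum.elim j b) (fun i => j (e (m i))))) ∧
    G.mul.Realize (Sum.elim a (Sum.elim b c)) ∧ r.RealizedBy j c

/-- The realised type `tp(g/N)` of an element `g ∈ G(M)`. -/
def tp (e : M ↪ₑ[L] N) (g : G.Pt) : SGfs G e where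
  carrier := {φ | φ.Realize (Sum.elim (fun n : N => n) (fun i => e (g.1 i)))}
  complete := fun φ => by
    simp only [mem_ofPred_eq]
    rw [Formula.realize_not]
    exact em _
  finSat := fun p₀ hp₀ => ⟨g.1, hp₀⟩
  dom_mem := by
    show Formula.Realize _ _
    rw [Formula.realize_relabel]
    exact (e.map_formula G.dom g.1).2 g.2

/-- `p ∘ A`: all limits of convergent nets `(g_i * a_i)_i` with `g_i ∈ G(M)`, `a_i ∈ A` and
`g_i → p`. Here `op` is the semigroup operation `*`. -/
def circ (op : SGfs G e → SGfs G e → SGfs G e) (p : SGfs G e) (A : Set (SGfs G e)) : Set (SGfs G e) :=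
  {x | ∃ (D : Type (max u v w)) (_ : Preorder D) (_ : IsDirectedOrder D) (_ : Nonempty D)
    (g : D → G.Pt) (a : D → SGfs G e), (∀ i, a i ∈ A) ∧
      Tendsto (fun i => tp e (g i)) atTop (𝓝 p) ∧
      Tendsto (fun i => op (tp e (g i)) (a i)) atTop (𝓝 x)}

/-- `I` is a minimal left ideal of `(S_G^fs(N, M), *)`. -/
structure IsMinimalLeftIdeal (op : SGfs G e → SGfs G e → SGfs G e) (I : Set (SGfs G e)) : Prop where
  nonempty : I.Nonempty
  left : ∀ p, ∀ q ∈ I, op p q ∈ I
  minimal : ∀ J : Set (SGfs G e), J ⊆ I → J.Nonempty → (∀ p, ∀ q ∈ J, op p q ∈ J) → J = I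

/-- The ideal group `u I = {u * x : x ∈ I}`. -/
def idealGroup (op : SGfs G e → SGfs G e → SGfs G e) (I : Set (SGfs G e)) (u : SGfs G e) :
    Set (SGfs G e) :=
  (fun x => op u x) '' I

/-- `cl_τ(A) = u I ∩ (u ∘ A)`. -/
def clTau (op : SGfs G e → SGfs G e → SGfs G e) (I : Set (SGfs G e)) (u : SGfs G e)
    (A : Set (SGfs G e)) : Set (SGfs G e) :=
  idealGroup op I u ∩ circ op u A

end Pool.Agent.H55.Tau
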