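import Mathlib

/-!
# Abstract topological dynamics behind the Hausdorffness of the τ-topology under NIP

`S` is a compact Hausdorff semigroup in which `p ↦ p * q` is continuous, `G` is a group with a
dense homomorphism `ι : G → S` such that `q ↦ ι g * q` is continuous.  `I` is a minimal left
ideal.  If the sets of patterns of finitely many clopen sets have bounded VC dimension
(uniformly over the points of `S`), then the τ-topology on every ideal group is Hausdorff.
-/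

open Set Filter Topology

namespace Pool.Agent.H55.TauDyn

set_option linter.unusedSectionVars false
set_option linter.unusedVariables false

universe u v

variable {S : Type u} [TopologicalSpace S] [Semigroup S] {G : Type v} [Group G]

/-- The standing hypotheses on the semigroup compactification. -/
structure Dyn (ι : G → S) : Prop where
  cont_right : ∀ q : S, Continuous (fun p : S => p * q)
  cont_left : ∀ g : G, Continuous (fun q : S => ι g * q)
  map_mul : ∀ g h : G, ι g * ι h = ι (g * h)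
  one_mul : ∀ q : S, ι 1 * q = q
  dense : DenseRange ι

/-- `p ∘ A` in neighbourhood form. -/
def circ (ι : G → S) (p : S) (A : Set S) : Set S :=
  {x | ∀ U ∈ 𝓝 p, ∀ W ∈ 𝓝 x, ∃ g : G, ι g ∈ U ∧ ∃ a ∈ A, ι g * a ∈ W}

/-- minimal left ideals, in the form we use -/
structure MinIdeal (I : Set S) : Prop where
  nonempty : I.Nonempty
  left : ∀ p : S, ∀ q ∈ I, p * q ∈ I
  min : ∀ J : Set S, J ⊆ I → J.Nonempty → (∀ p : S, ∀ q ∈ J, p * q ∈ J) → J = I

/-- the ideal group `w I` -/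
def grp (I : Set S) (w : S) : Set S := {x | x ∈ I ∧ w * x = x}

/-- τ-closure -/
def cl (ι : G → S) (I : Set S) (w : S) (A : Set S) : Set S := grp I w ∩ circ ι w A

/-- idempotents of `I` -/
def Idem (I : Set S) (w : S) : Prop := w ∈ I ∧ w * w = w

section basic

variable {ι : G → S} {I : Set S}

theorem exists_mul_eq (hI : MinIdeal I) {p x : S} (hp : p ∈ I) (hx : x ∈ I) :
    ∃ s : S, s * p = x := by
  have h : Set.range (fun s : S => s * p) = I := by
    apply hI.min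
    · rintro _ ⟨s, rfl⟩
      exact hI.left _ _ hp
    · exact ⟨_, ⟨p, rfl⟩⟩
    · rintro r _ ⟨s, rfl⟩
      exact ⟨r * s, mul_assoc _ _ _⟩
  rw [← h] at hx
  exact hx

theorem exists_mul_eq' (hI : MinIdeal I) {p x : S} (hp : p ∈ I) (hx : x ∈ I) :
    ∃ s ∈ I, s * p = x := by
  have h : (fun s : S => s * p) '' I = I := by
    apply hI.min
    · rintro _ ⟨s, hs, rfl⟩
      exact hI.left _ _ hp
    · exact ⟨_, ⟨p, hp, rfl⟩⟩
    · rintro r _ ⟨s, hs, rfl⟩
      exact ⟨r * s, hI.left _ _ hs, mul_assoc _ _ _⟩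
  rw [← h] at hx
  exact hx

theorem isCompact_ideal [CompactSpace S] (hD : Dyn ι) (hI : MinIdeal I) : IsCompact I := by
  obtain ⟨p, hp⟩ := hI.nonempty
  have h : Set.range (fun s : S => s * p) = I := by
    apply hI.min
    · rintro _ ⟨s, rfl⟩
      exact hI.left _ _ hp
    · exact ⟨_, ⟨p, rfl⟩⟩
    · rintro r _ ⟨s, rfl⟩
      exact ⟨r * s, mul_assoc _ _ _⟩
  rw [← h]
  exact isCompact_range (hD.cont_right p)

theorem mul_idem (hI : MinIdeal I) {p e : S} (hp : p ∈ I) (he : Idem I e) : p * e = p := by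
  obtain ⟨s, rfl⟩ := exists_mul_eq hI he.1 hp
  rw [mul_assoc, he.2]

theorem exists_idem [CompactSpace S] [T2Space S] (hD : Dyn ι) (hI : MinIdeal I) {p : S}
    (hp : p ∈ I) : ∃ w, Idem I w ∧ w * p = p := by
  obtain ⟨m, hm, hmm⟩ := exists_idempotent_in_compact_subsemigroup (M := S) hD.cont_right
    (I ∩ {s | s * p = p}) (by
      obtain ⟨s, hs, h⟩ := exists_mul_eq' hI hp hp
      exact ⟨s, hs, h⟩)
    ((isCompact_ideal hD hI).inter_right (isClosed_eq (hD.cont_right p) continuous_const))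
    (by
      rintro x ⟨hx, hxp⟩ y ⟨hy, hyp⟩
      refine ⟨hI.left _ _ hy, ?_⟩
      simp only [mem_ofPred_eq] at hxp hyp ⊢
      rw [mul_assoc, hyp, hxp])
  exact ⟨m, ⟨hm.1, hmm⟩, hm.2⟩

/-- inverses -/
theorem exists_inv (hI : MinIdeal I) {w b : S} (hw : Idem I w) (hb : b ∈ I) :
    ∃ b' ∈ grp I w, b' * b = w ∧ ∀ w', Idem I w' → w' * b = b → b * b' = w' := by
  obtain ⟨s, hs, h⟩ := exists_mul_eq' hI (hI.left w b hb) hw.1
  have h1 : w * (s * w) ∈ I := hI.left _ _ (hI.left _ _ hw.1)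
  have h2 : w * (s * w) * b = w := by
    rw [mul_assoc, mul_assoc, h, hw.2]
  refine ⟨w * (s * w), ⟨h1, ?_⟩, h2, ?_⟩
  · rw [← mul_assoc, hw.2]
  · intro w' hw' hb'
    set b' := w * (s * w) with hb'def
    have he : b * b' ∈ I := hI.left _ _ h1
    have hee : (b * b') * (b * b') = b * b' := by
      have : (b * b') * (b * b') = b * ((b' * b) * b') := by
        simp only [mul_assoc]
      rw [this, h2]
      have : w * b' = b' := by rw [hb'def, ← mul_assoc, hw.2]
      rw [this]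
    have h3 : w' * (b * b') = w' := mul_idem hI hw'.1 ⟨he, hee⟩
    have h4 : w' * (b * b') = b * b' := by rw [← mul_assoc, hb']
    exact h4.symm.trans h3

theorem mem_grp_mul (hI : MinIdeal I) {w x y : S} (hx : w * x = x) (hy : y ∈ I) :
    x * y ∈ grp I w := by
  refine ⟨hI.left _ _ hy, ?_⟩
  rw [← mul_assoc, hx]

end basic

section closure

variable {ι : G → S} {I : Set S} {w : S} {A B : Set S}

theorem cl_subset : cl ι I w A ⊆ grp I w := fun _ hx => hx.1

theorem circ_mono (h : A ⊆ B) : circ ι w A ⊆ circ ι w B := by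
  intro x hx U hU W hW
  obtain ⟨g, hg, a, ha, h'⟩ := hx U hU W hW
  exact ⟨g, hg, a, h ha, h'⟩

theorem cl_mono (h : A ⊆ B) : cl ι I w A ⊆ cl ι I w B :=
  fun _ hx => ⟨hx.1, circ_mono h hx.2⟩

theorem subset_cl (hD : Dyn ι) (hA : A ⊆ grp I w) : A ⊆ cl ι I w A := by
  intro a ha
  refine ⟨hA ha, ?_⟩
  intro U hU W hW
  have h1 : {p | p * a ∈ W} ∈ 𝓝 w := by
    apply (hD.cont_right a).continuousAt
    show W ∈ 𝓝 (w * a)
    rwa [(hA ha).2]
  obtain ⟨g, hg⟩ := hD.dense.exists_mem_open isOpen_interior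
    (⟨w, mem_interior_iff_mem_nhds.2 (inter_mem hU h1)⟩ : (interior (U ∩ {p | p * a ∈ W})).Nonempty)
  have := interior_subset hg
  exact ⟨g, this.1, a, ha, this.2⟩

theorem circ_union : circ ι w (A ∪ B) ⊆ circ ι w A ∪ circ ι w B := by
  intro x hx
  by_contra hcon
  rw [mem_union, not_or] at hcon
  obtain ⟨h1, h2⟩ := hcon
  simp only [circ, mem_ofPred_eq, not_forall] at h1 h2
  obtain ⟨U1, hU1, W1, hW1, h1⟩ := h1
  obtain ⟨U2, hU2, W2, hW2, h2⟩ := h2
  obtain ⟨g, hg, a, ha, h'⟩ := hx _ (inter_mem hU1 hU2) _ (inter_mem hW1 hW2)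
  rcases ha with ha | ha
  · exact h1 ⟨g, hg.1, a, ha, h'.1⟩
  · exact h2 ⟨g, hg.2, a, ha, h'.2⟩

theorem cl_union : cl ι I w (A ∪ B) ⊆ cl ι I w A ∪ cl ι I w B := by
  rintro x ⟨hx, hx'⟩
  rcases circ_union hx' with h | h
  · exact Or.inl ⟨hx, h⟩
  · exact Or.inr ⟨hx, h⟩

theorem circ_empty : circ ι w (∅ : Set S) = ∅ := by
  ext x
  simp only [circ, mem_ofPred_eq, mem_empty_iff_false, iff_false, not_forall]
  exact ⟨univ, univ_mem, univ, univ_mem, by simp⟩

/-- the translation lemma -/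
theorem mul_mem_cl (hD : Dyn ι) (hI : MinIdeal I) {w' b b' : S} (hw : Idem I w)
    (hb' : b' ∈ grp I w) (hb : b ∈ grp I w') (h1 : b' * b = w) (h2 : b * b' = w')
    (hA : A ⊆ grp I w) {r : S} (hr : r ∈ cl ι I w A) :
    b * r ∈ cl ι I w' ((fun x => b * x) '' A) := by
  refine ⟨mem_grp_mul hI hb.2 hr.1.1, ?_⟩
  intro U hU W hW
  -- choose g'
  have e1 : {p | p * r ∈ interior W} ∈ 𝓝 b :=
    (hD.cont_right r).continuousAt (show interior W ∈ 𝓝 (b * r) from interior_mem_nhds.2 hW)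
  have e2 : {p | p * b' ∈ interior U} ∈ 𝓝 b :=
    (hD.cont_right b').continuousAt (show interior U ∈ 𝓝 (b * b') by
      rw [h2]; exact interior_mem_nhds.2 hU)
  obtain ⟨g', hg'⟩ := hD.dense.exists_mem_open isOpen_interior
    (⟨b, mem_interior_iff_mem_nhds.2 (inter_mem e1 e2)⟩ : (interior _).Nonempty)
  obtain ⟨hg1, hg2⟩ := interior_subset hg'
  simp only [mem_ofPred_eq] at hg1 hg2
  -- choose g
  have e3 : {q | ι g' * q ∈ interior W} ∈ 𝓝 r :=
    (isOpen_interior.preimage (hD.cont_left g')).mem_nhds hg1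
  have e4 : {p | ι g' * (p * b') ∈ interior U} ∈ 𝓝 w :=
    (isOpen_interior.preimage ((hD.cont_left g').comp (hD.cont_right b'))).mem_nhds (by
      simp only [mem_preimage, Function.comp]
      rw [hb'.2]; exact hg2)
  obtain ⟨g, hg, a, ha, hga⟩ := hr.2 _ e4 _ e3
  simp only [mem_ofPred_eq] at hg hga
  -- choose g''
  have e5 : {q | ι g' * (ι g * q) ∈ interior U} ∈ 𝓝 b' :=
    (isOpen_interior.preimage ((hD.cont_left g').comp (hD.cont_left g))).mem_nhds hg
  have e6 : {q | ι g' * (ι g * (q * (b * a))) ∈ interior W} ∈ 𝓝 b' :=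
    (isOpen_interior.preimage (((hD.cont_left g').comp (hD.cont_left g)).comp
      (hD.cont_right (b * a)))).mem_nhds (by
      simp only [mem_preimage, Function.comp]
      rw [← mul_assoc b' b a, h1, (hA ha).2]; exact hga)
  obtain ⟨g'', hg''⟩ := hD.dense.exists_mem_open isOpen_interior
    (⟨b', mem_interior_iff_mem_nhds.2 (inter_mem e5 e6)⟩ : (interior _).Nonempty)
  obtain ⟨hg3, hg4⟩ := interior_subset hg''
  simp only [mem_ofPred_eq] at hg3 hg4
  refine ⟨g' * (g * g''), ?_, b * a, ⟨a, ha, rfl⟩, ?_⟩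
  · rw [← hD.map_mul, ← hD.map_mul]
    exact interior_subset hg3
  · rw [← hD.map_mul, ← hD.map_mul, mul_assoc, mul_assoc]
    exact interior_subset hg4

/-- right translations -/
theorem mem_cl_mul (hD : Dyn ι) (hI : MinIdeal I) {c : S} (hc : c ∈ I) {r : S}
    (hr : r ∈ cl ι I w A) :
    r * c ∈ cl ι I w ((fun x => x * c) '' A) := by
  refine ⟨mem_grp_mul hI hr.1.2 hc, ?_⟩
  intro U hU W hW
  have e1 : {q | q * c ∈ W} ∈ 𝓝 r := (hD.cont_right c).continuousAt hW
  obtain ⟨g, hg, a, ha, hga⟩ := hr.2 _ hU _ e1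
  exact ⟨g, hg, a * c, ⟨a, ha, rfl⟩, by rw [← mul_assoc]; exact hga⟩

/-- `cl` is idempotent -/
theorem cl_cl (hD : Dyn ι) (hw : w * w = w) : cl ι I w (cl ι I w A) ⊆ cl ι I w A := by
  rintro x ⟨hx, hx'⟩
  refine ⟨hx, ?_⟩
  intro U hU W hW
  have e1 : {p | p * w ∈ interior U} ∈ 𝓝 w :=
    (hD.cont_right w).continuousAt (show interior U ∈ 𝓝 (w * w) by
      rw [hw]; exact interior_mem_nhds.2 hU)
  obtain ⟨g, hg, y, hy, hgy⟩ := hx' _ e1 _ (interior_mem_nhds.2 hW)
  simp only [mem_ofPred_eq] at hg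
  have e2 : {q | ι g * q ∈ interior U} ∈ 𝓝 w :=
    (isOpen_interior.preimage (hD.cont_left g)).mem_nhds hg
  have e3 : {q | ι g * q ∈ interior W} ∈ 𝓝 y :=
    (isOpen_interior.preimage (hD.cont_left g)).mem_nhds hgy
  obtain ⟨g', hg', a, ha, h⟩ := hy.2 _ e2 _ e3
  refine ⟨g * g', ?_, a, ha, ?_⟩
  · rw [← hD.map_mul]; exact interior_subset hg'
  · rw [← hD.map_mul, mul_assoc]; exact interior_subset h

end closure

section opens

variable {ι : G → S} {I : Set S} {w : S}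

/-- τ-open subsets of `w I` -/
def OpenAt (ι : G → S) (I : Set S) (w : S) (O : Set S) : Prop :=
  O ⊆ grp I w ∧ cl ι I w (grp I w \ O) ⊆ grp I w \ O

theorem openAt_compl_cl (hD : Dyn ι) (hw : w * w = w) (A : Set S) :
    OpenAt ι I w (grp I w \ cl ι I w A) := by
  refine ⟨sdiff_subset, ?_⟩
  have : grp I w \ (grp I w \ cl ι I w A) = cl ι I w A := by
    rw [sdiff_sdiff_cancel_left cl_subset]
  rw [this]
  exact cl_cl hD hw

/-- preimages of open sets under left translations -/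
theorem openAt_preimage (hD : Dyn ι) (hI : MinIdeal I) {w' b b' : S} (hw : Idem I w)
    (hb' : b' ∈ grp I w) (hb : b ∈ grp I w') (h1 : b' * b = w) (h2 : b * b' = w')
    {O : Set S} (hO : OpenAt ι I w' O) :
    OpenAt ι I w {x | x ∈ grp I w ∧ b * x ∈ O} := by
  refine ⟨fun x hx => hx.1, ?_⟩
  intro x hx
  refine ⟨hx.1, ?_⟩
  rintro ⟨-, hxO⟩
  have h3 := mul_mem_cl hD hI hw hb' hb h1 h2 (sdiff_subset) hx
  have h4 : b * x ∈ cl ι I w' (grp I w' \ O) := by
    refine cl_mono ?_ h3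
    rintro _ ⟨y, hy, rfl⟩
    refine ⟨mem_grp_mul hI hb.2 hy.1.1, ?_⟩
    intro hyO
    exact hy.2 ⟨hy.1, hyO⟩
  exact (hO.2 h4).2 hxO

/-- preimages of open sets under right translations -/
theorem openAt_preimage_right (hD : Dyn ι) (hI : MinIdeal I) {c : S} (hc : c ∈ I)
    {O : Set S} (hO : OpenAt ι I w O) :
    OpenAt ι I w {x | x ∈ grp I w ∧ x * c ∈ O} := by
  refine ⟨fun x hx => hx.1, ?_⟩
  intro x hx
  refine ⟨hx.1, ?_⟩
  rintro ⟨-, hxO⟩
  have h3 := mem_cl_mul hD hI hc hx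
  have h4 : x * c ∈ cl ι I w (grp I w \ O) := by
    refine cl_mono ?_ h3
    rintro _ ⟨y, hy, rfl⟩
    refine ⟨mem_grp_mul hI hy.1.2 hc, ?_⟩
    intro hyO
    exact hy.2 ⟨hy.1, hyO⟩
  exact (hO.2 h4).2 hxO

theorem OpenAt.inter {O O' : Set S} (hO : OpenAt ι I w O) (hO' : OpenAt ι I w O') :
    OpenAt ι I w (O ∩ O') := by
  refine ⟨fun x hx => hO.1 hx.1, ?_⟩
  rw [sdiff_inter]
  intro x hx
  rcases cl_union hx with h | h
  · exact Or.inl (hO.2 h)
  · exact Or.inr (hO'.2 h)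

end opens

end Pool.Agent.H55.TauDyn
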