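import Pool.Agent.H55.TauDyn

open Set Filter Topology

namespace Pool.Agent.H55.TauDyn

set_option linter.unusedSectionVars false
set_option linter.unusedVariables false

universe u v

variable {S : Type u} [TopologicalSpace S] [Semigroup S] {G : Type v} [Group G]
variable {ι : G → S} {I : Set S} {w : S}

/-- The multi-lemma: finitely many points `c j` in closures of `V j ∩ wI` can be pushed
simultaneously from `V j ∩ wI` into the neighbourhoods `C j`. -/
theorem multi (hD : Dyn ι) (hw : Idem I w) {J : Type*} [Finite J]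
    (V C : J → Set S) (c : J → S)
    (hC : ∀ j, IsOpen (C j)) (hcC : ∀ j, c j ∈ C j) (hcI : ∀ j, c j ∈ grp I w)
    (hcV : ∀ j, c j ∈ cl ι I w (V j ∩ grp I w)) :
    ∃ g : G, ∀ j, ∃ v ∈ V j ∩ grp I w, ι g * v ∈ C j := by
  classical
  cases nonempty_fintype J
  have key : ∀ F : Finset J, ∃ g : G, (∀ j ∈ F, ∃ v ∈ V j ∩ grp I w, ι g * v ∈ C j) ∧
      ∀ j, j ∉ F → ι g * c j ∈ C j := by
    intro F
    induction F using Finset.induction_on with
    | empty =>
      refine ⟨1, by simp, ?_⟩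
      intro j _
      rw [hD.one_mul]; exact hcC j
    | insert i F hi ih =>
      obtain ⟨g, h1, h2⟩ := ih
      have : Nonempty S := ⟨w⟩
      choose! v hv hvC using h1
      -- the neighbourhood of w
      have hU : {p | (∀ j ∈ F, ι g * (p * v j) ∈ C j) ∧ ∀ j, j ∉ F → ι g * (p * c j) ∈ C j} ∈ 𝓝 w := by
        have e : {p | (∀ j ∈ F, ι g * (p * v j) ∈ C j) ∧ ∀ j, j ∉ F → ι g * (p * c j) ∈ C j} =
          (⋂ j ∈ F, {p | ι g * (p * v j) ∈ C j}) ∩ (⋂ j ∈ (Finset.univ \ F : Finset J), {p | ι g * (p * c j) ∈ C j}) := by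
          ext p
          simp
        rw [e]
        refine inter_mem ?_ ?_
        · rw [Filter.biInter_finset_mem]
          intro j hj
          refine ((hC j).preimage ((hD.cont_left g).comp (hD.cont_right (v j)))).mem_nhds ?_
          simp only [mem_preimage, Function.comp]
          rw [(hv j hj).2.2]; exact hvC j hj
        · rw [Filter.biInter_finset_mem]
          intro j hj
          refine ((hC j).preimage ((hD.cont_left g).comp (hD.cont_right (c j)))).mem_nhds ?_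
          simp only [mem_preimage, Function.comp]
          rw [(hcI j).2]
          exact h2 j (by simpa using hj)
      have hW : {q | ι g * q ∈ C i} ∈ 𝓝 (c i) :=
        ((hC i).preimage (hD.cont_left g)).mem_nhds (h2 i hi)
      obtain ⟨g', hg', a, ha, hga⟩ := (hcV i).2 _ hU _ hW
      refine ⟨g * g', ?_, ?_⟩
      · intro j hj
        rw [Finset.mem_insert] at hj
        rcases hj with rfl | hj
        · refine ⟨a, ha, ?_⟩
          rw [← hD.map_mul, mul_assoc]; exact hga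
        · refine ⟨v j, hv j hj, ?_⟩
          rw [← hD.map_mul, mul_assoc]
          exact hg'.1 j hj
      · intro j hj
        rw [Finset.mem_insert, not_or] at hj
        rw [← hD.map_mul, mul_assoc]
        exact hg'.2 j hj.2
  obtain ⟨g, hg, -⟩ := key Finset.univ
  exact ⟨g, fun j => hg j (Finset.mem_univ j)⟩

/-- The non-separation hypothesis: `h ≠ u` is in the closure of each open neighbourhood of `u`. -/
def NH (ι : G → S) (I : Set S) (u h : S) : Prop :=
  h ∈ grp I u ∧ h ≠ u ∧ ∀ O, OpenAt ι I u O → u ∈ O → h ∈ cl ι I u O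

theorem NH.transfer (hD : Dyn ι) (hI : MinIdeal I) {u h : S} (hu : Idem I u) (hh : NH ι I u h)
    {w' y : S} (hw' : Idem I w') (hy : y ∈ grp I w') {O : Set S} (hO : OpenAt ι I w' O)
    (hyO : y ∈ O) : y * h ∈ cl ι I w' O := by
  obtain ⟨y', hy', h1, h2⟩ := exists_inv hI hu hy.1
  have h2 := h2 w' hw' hy.2
  have h3 := openAt_preimage hD hI hu hy' hy h1 h2 hO
  have h4 : h ∈ cl ι I u {x | x ∈ grp I u ∧ y * x ∈ O} := by
    refine hh.2.2 _ h3 ⟨⟨hu.1, hu.2⟩, ?_⟩
    rw [mul_idem hI hy.1 hu]; exact hyO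
  have h5 := mul_mem_cl hD hI hu hy' hy h1 h2 (fun x hx => hx.1) h4
  refine cl_mono ?_ h5
  rintro _ ⟨x, hx, rfl⟩
  exact hx.2

theorem NH.mul_ne (hI : MinIdeal I) {u h : S} (hu : Idem I u) (hh : NH ι I u h)
    {p : S} (hp : p ∈ I) : p * h ≠ p := by
  intro hph
  obtain ⟨p', hp', h1, -⟩ := exists_inv hI hu hp
  apply hh.2.1
  have : p' * (p * h) = p' * p := by rw [hph]
  rw [← mul_assoc, h1, hh.1.2] at this
  exact this

/-- finite closed covers: set version. -/
theorem exists_open_of_cover {X : Set S} (hX : X = grp I w) (hne : X.Nonempty) (hD : Dyn ι)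
    (hw : w * w = w) {K : Type*} (s : Finset K) (F : K → Set S)
    (hF : ∀ k ∈ s, OpenAt ι I w (grp I w \ F k)) (hcov : ∀ x ∈ X, ∃ k ∈ s, x ∈ F k) :
    ∃ k ∈ s, ∃ O, OpenAt ι I w O ∧ O.Nonempty ∧ O ⊆ F k := by
  classical
  -- strengthened: for open nonempty Y covered
  have key : ∀ s : Finset K, ∀ Y : Set S, OpenAt ι I w Y → Y.Nonempty →
      (∀ k ∈ s, OpenAt ι I w (grp I w \ F k)) → (∀ x ∈ Y, ∃ k ∈ s, x ∈ F k) →
      ∃ k ∈ s, ∃ O, OpenAt ι I w O ∧ O.Nonempty ∧ O ⊆ F k := by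
    intro s
    induction s using Finset.induction_on with
    | empty =>
      intro Y hY hne _ hcov
      obtain ⟨x, hx⟩ := hne
      obtain ⟨k, hk, -⟩ := hcov x hx
      simp at hk
    | insert i s hi ih =>
      intro Y hY hne hF hcov
      by_cases hemp : (Y ∩ (grp I w \ F i)).Nonempty
      · obtain ⟨k, hk, O, h1, h2, h3⟩ := ih (Y ∩ (grp I w \ F i))
          (hY.inter (hF i (Finset.mem_insert_self _ _))) hemp
          (fun k hk => hF k (Finset.mem_insert_of_mem hk))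
          (by
            rintro x ⟨hx, hx1, hx2⟩
            obtain ⟨k, hk, hxk⟩ := hcov x hx
            rw [Finset.mem_insert] at hk
            rcases hk with rfl | hk
            · exact absurd hxk hx2
            · exact ⟨k, hk, hxk⟩)
        exact ⟨k, Finset.mem_insert_of_mem hk, O, h1, h2, h3⟩
      · refine ⟨i, Finset.mem_insert_self _ _, Y, hY, hne, ?_⟩
        intro x hx
        by_contra hxF
        exact hemp ⟨x, hx, hY.1 hx, hxF⟩
  refine key s X ?_ hne hF hcov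
  subst hX
  refine ⟨Subset.rfl, ?_⟩
  rw [sdiff_self]
  intro x hx
  have := hx.2
  rw [circ_empty] at this
  exact this.elim

/-- The good idempotent lemma. -/
theorem good_idem [CompactSpace S] [T2Space S] (hD : Dyn ι) (hI : MinIdeal I) {u h : S}
    (hu : Idem I u) (hh : NH ι I u h) (hw : Idem I w) {J : Type*} [Finite J]
    (V : J → Set S) (hV : ∀ j, IsOpen (V j)) (c : J → S) (hcV : ∀ j, c j ∈ V j)
    (hcI : ∀ j, c j ∈ grp I w) :
    ∃ w', Idem I w' ∧ ∃ y : J → S, (∀ j, y j ∈ grp I w') ∧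
      (∀ j, y j ∈ cl ι I w' (V j ∩ grp I w')) ∧
      (∀ j, y j * h ∈ cl ι I w' (V j ∩ grp I w')) := by
  classical
  cases nonempty_fintype J
  set V' : Set S := {p | ∀ j, p * c j ∈ V j} with hV'
  have hV'o : IsOpen V' := by
    have : V' = ⋂ j, {p | p * c j ∈ V j} := by
      ext p; simp [hV']
    rw [this]
    exact isOpen_iInter_of_finite fun j => (hV j).preimage (hD.cont_right (c j))
  have hwV' : w ∈ V' := by
    intro j
    rw [(hcI j).2]; exact hcV j
  -- finite subcover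
  have hcov : ∀ p ∈ I, ∃ g : G, ι g * p ∈ V' := by
    intro p hp
    obtain ⟨s, hs⟩ := exists_mul_eq hI hp hw.1
    have hopen : IsOpen {s : S | s * p ∈ V'} := hV'o.preimage (hD.cont_right p)
    obtain ⟨g, hg⟩ := hD.dense.exists_mem_open hopen ⟨s, by
      show s * p ∈ V'
      rw [hs]; exact hwV'⟩
    exact ⟨g, hg⟩
  obtain ⟨t, ht⟩ := (isCompact_ideal hD hI).elim_finite_subcover
    (fun g : G => {q | ι g * q ∈ V'}) (fun g => hV'o.preimage (hD.cont_left g))
    (by
      intro p hp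
      obtain ⟨g, hg⟩ := hcov p hp
      exact mem_iUnion.2 ⟨g, hg⟩)
  have ht' : ∀ p ∈ I, ∃ g ∈ t, ι g * p ∈ V' := by
    intro p hp
    have := ht hp
    simpa using this
  -- idempotents
  have hb : ∀ g : G, ∃ w', Idem I w' ∧ w' * (ι g * w) = ι g * w := fun g =>
    exists_idem hD hI (hI.left _ _ hw.1)
  choose wi hwi hwib using hb
  have hbinv : ∀ g : G, ∃ b' ∈ grp I w, b' * (ι g * w) = w ∧ (ι g * w) * b' = wi g := by
    intro g
    obtain ⟨b', hb', h1, h2⟩ := exists_inv hI hw (hI.left (ι g) w hw.1)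
    exact ⟨b', hb', h1, h2 _ (hwi g) (hwib g)⟩
  choose bi hbi hbi1 hbi2 using hbinv
  have hbm : ∀ g, ι g * w ∈ grp I (wi g) := fun g => ⟨hI.left _ _ hw.1, hwib g⟩
  -- closed cover of wI
  obtain ⟨g, hg, O, hO, hOne, hOF⟩ := exists_open_of_cover (X := grp I w) rfl ⟨w, hw.1, hw.2⟩ hD hw.2 t
    (fun g => {r | r ∈ grp I w ∧ (ι g * w) * r ∈ cl ι I (wi g) (V' ∩ grp I (wi g))})
    (by
      intro g hg
      have h1 := openAt_compl_cl hD (hwi g).2 (I := I) (V' ∩ grp I (wi g))
      have h2 := openAt_preimage hD hI hw (hbi g) (hbm g) (hbi1 g) (hbi2 g) h1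
      convert h2 using 1
      ext x
      constructor
      · rintro ⟨hx, hx'⟩
        refine ⟨hx, mem_grp_mul hI (hwib g) hx.1, ?_⟩
        intro h3
        exact hx' ⟨hx, h3⟩
      · rintro ⟨hx, hx', hx''⟩
        exact ⟨hx, fun h3 => hx'' h3.2⟩)
    (by
      intro r hr
      obtain ⟨g, hg, hgr⟩ := ht' r hr.1
      refine ⟨g, hg, hr, ?_⟩
      have h1 : ι g * w * r = ι g * r := by rw [mul_assoc, hr.2]
      apply subset_cl hD inter_subset_right
      refine ⟨by rw [h1]; exact hgr, mem_grp_mul hI (hwib g) hr.1⟩)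
  -- transport O to w' = wi g
  have hw' := hwi g
  set w' := wi g with hw'def
  have hbin : bi g ∈ grp I w := hbi g
  obtain ⟨r, hr⟩ := hOne
  have hr' := hOF hr
  -- O' := {x ∈ grp I w' | bi g * x ∈ O}
  have hO' : OpenAt ι I w' {x | x ∈ grp I w' ∧ bi g * x ∈ O} :=
    openAt_preimage hD hI hw' (hbm g) (hbi g) (hbi2 g) (hbi1 g) hO
  set r0 : S := ι g * w * r with hr0
  have hr0I : r0 ∈ grp I w' := mem_grp_mul hI (hwib g) hr'.1.1
  have hr0O : r0 ∈ {x | x ∈ grp I w' ∧ bi g * x ∈ O} := by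
    refine ⟨hr0I, ?_⟩
    rw [hr0, ← mul_assoc, hbi1, hr'.1.2]
    exact hr
  have hO'cl : {x | x ∈ grp I w' ∧ bi g * x ∈ O} ⊆ cl ι I w' (V' ∩ grp I w') := by
    rintro x ⟨hx, hx'⟩
    have h1 := (hOF hx').2
    rw [← mul_assoc, hbi2, hx.2] at h1
    exact h1
  refine ⟨w', hw', fun j => r0 * c j, fun j => mem_grp_mul hI hr0I.2 (hcI j).1, ?_, ?_⟩
  · intro j
    have h1 := mem_cl_mul hD hI (hcI j).1 (hO'cl hr0O)
    refine cl_mono ?_ h1
    rintro _ ⟨x, hx, rfl⟩
    exact ⟨hx.1 j, mem_grp_mul hI hx.2.2 (hcI j).1⟩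
  · intro j
    -- the inverse of c j in the group w I
    obtain ⟨c', hc', h1, h2⟩ := exists_inv hI hw (hcI j).1
    have h2 := h2 w hw (hcI j).2
    -- O'' := {x ∈ grp I w' | x * c' ∈ O'}
    have hO'' := openAt_preimage_right (w := w') hD hI hc'.1 hO'
    have hyj : r0 * c j ∈ {x | x ∈ grp I w' ∧ x * c' ∈ {x | x ∈ grp I w' ∧ bi g * x ∈ O}} := by
      refine ⟨mem_grp_mul hI hr0I.2 (hcI j).1, ?_⟩
      rw [mul_assoc, h2, mul_idem hI hr0I.1 hw]
      exact hr0O
    have h3 := hh.transfer hD hI hu hw' (y := r0 * c j) (mem_grp_mul hI hr0I.2 (hcI j).1) hO'' hyj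
    -- O'' ⊆ cl (V j ∩ grp)
    have h4 : {x | x ∈ grp I w' ∧ x * c' ∈ {x | x ∈ grp I w' ∧ bi g * x ∈ O}} ⊆
        cl ι I w' (V j ∩ grp I w') := by
      rintro x ⟨hx, hx'⟩
      have h5 := mem_cl_mul hD hI (hcI j).1 (hO'cl hx')
      rw [mul_assoc, h1, mul_idem hI hx.1 hw] at h5
      refine cl_mono ?_ h5
      rintro _ ⟨x, hx, rfl⟩
      exact ⟨hx.1 j, mem_grp_mul hI hx.2.2 (hcI j).1⟩
    exact cl_cl hD hw'.2 (cl_mono h4 h3)

end Pool.Agent.H55.TauDyn
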