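import Pool.Agent.H55.TauDyn2

open Set Filter Topology

namespace Pool.Agent.H55.TauDyn

set_option linter.unusedSectionVars false
set_option linter.unusedVariables false

universe u v

variable {S : Type u} [TopologicalSpace S] [Semigroup S] {G : Type v} [Group G]
variable {ι : G → S} {I : Set S} {w : S}

/-- The splitting tree: exponentially many patterns. -/
theorem tree [CompactSpace S] [T2Space S] (hD : Dyn ι) (hI : MinIdeal I) {u h : S}
    (hu : Idem I u) (hh : NH ι I u h) {F : Type*} (f : S → F)
    (hf : ∀ p : S, IsOpen {q | f q = f p}) (hfh : ∀ p ∈ I, f (p * h) ≠ f p) (n : ℕ) :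
    ∃ w, Idem I w ∧ ∃ g : Fin n → G, ∃ T : Finset (Fin n → F), 2 ^ n ≤ T.card ∧
      ∀ t ∈ T, ∃ c ∈ grp I w, ∀ j, f (ι (g j) * c) = t j := by
  classical
  induction n with
  | zero =>
    refine ⟨u, hu, Fin.elim0, {Fin.elim0}, by simp, ?_⟩
    intro t _
    exact ⟨u, ⟨hu.1, hu.2⟩, fun j => j.elim0⟩
  | succ n ih =>
    obtain ⟨w, hw, g, T, hT, hTc⟩ := ih
    have : Nonempty S := ⟨u⟩
    choose! c hcI hc using hTc
    -- apply the good idempotent lemma to the family indexed by T
    obtain ⟨w', hw', y, hy, hy1, hy2⟩ := good_idem hD hI hu hh hw (J := T)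
      (fun t => {q | ∀ j, f (ι (g j) * q) = t.1 j}) (by
        rintro ⟨t, ht⟩
        have : {q | ∀ j, f (ι (g j) * q) = t j} =
            ⋂ j, (fun q => ι (g j) * q) ⁻¹' {q | f q = f (ι (g j) * c t)} := by
          ext q
          simp only [mem_ofPred_eq, mem_iInter, mem_preimage, hc t ht]
        show IsOpen {q | ∀ j, f (ι (g j) * q) = t j}
        rw [this]
        exact isOpen_iInter_of_finite fun j => (hf _).preimage (hD.cont_left (g j)))
      (fun t => c t.1) (fun t j => hc t.1 t.2 j) (fun t => hcI t.1 t.2)
    -- multi-lemma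
    obtain ⟨g', hg'⟩ := multi hD hw' (J := T × Bool)
      (fun t => {q | ∀ j, f (ι (g j) * q) = t.1.1 j})
      (fun t => {q | f q = f (if t.2 then y t.1 * h else y t.1)})
      (fun t => if t.2 then y t.1 * h else y t.1)
      (fun t => hf _) (fun t => rfl)
      (by
        rintro ⟨t, b⟩
        cases b
        · exact hy t
        · exact mem_grp_mul hI (hy t).2 hh.1.1)
      (by
        rintro ⟨t, b⟩
        cases b
        · exact hy1 t
        · exact hy2 t)
    refine ⟨w', hw', Fin.snoc g g', (Finset.univ : Finset (T × Bool)).image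
      (fun t => Fin.snoc (α := fun _ => F) t.1.1 (f (if t.2 then y t.1 * h else y t.1))), ?_, ?_⟩
    · rw [Finset.card_image_of_injective]
      · simp only [Finset.card_univ, Fintype.card_prod, Fintype.card_coe, Fintype.card_bool]
        rw [pow_succ]
        exact Nat.mul_le_mul_right 2 hT
      · rintro ⟨t, b⟩ ⟨t', b'⟩ heq
        have h1 : t = t' := by
          apply Subtype.ext
          have := congrArg (fun s => (Fin.init s : Fin n → F)) heq
          simpa using this
        subst h1
        have h2 : f (if b then y t * h else y t) = f (if b' then y t * h else y t) := by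
          have := congrFun heq (Fin.last n)
          simpa using this
        have h3 := hfh (y t) (hy t).1
        cases b <;> cases b' <;> simp_all
    · intro s hs
      rw [Finset.mem_image] at hs
      obtain ⟨⟨t, b⟩, -, rfl⟩ := hs
      obtain ⟨v, hv, hvC⟩ := hg' ⟨t, b⟩
      refine ⟨v, hv.2, ?_⟩
      intro j
      refine Fin.lastCases ?_ (fun j => ?_) j
      · simp only [Fin.snoc_last]
        exact hvC
      · simp only [Fin.snoc_castSucc]
        exact hv.1 j

end Pool.Agent.H55.TauDyn
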