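import Pool.Agent.H55.TauDyn3

open Set Filter Topology

namespace Pool.Agent.H55.TauDyn

set_option linter.unusedSectionVars false
set_option linter.unusedVariables false

universe u v

variable {S : Type u} [TopologicalSpace S] [Semigroup S] {G : Type v} [Group G]
variable {ι : G → S} {I : Set S} {w : S}

/-- no `K` translates of `C` are shattered by points of `S` -/
def VCle (ι : G → S) (C : Set S) (K : ℕ) : Prop :=
  ¬ ∃ g : Fin K → G, ∀ J : Set (Fin K), ∃ x : S, ∀ i, (ι (g i) * x ∈ C ↔ i ∈ J)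

theorem vc_count {C : Set S} {K : ℕ} (hK : VCle ι C K) {n : ℕ} (g : Fin n → G)
    (𝒜 : Finset (Finset (Fin n)))
    (h𝒜 : ∀ A ∈ 𝒜, ∃ x : S, ∀ j, (ι (g j) * x ∈ C ↔ j ∈ A)) :
    𝒜.card ≤ K * (n + 1) ^ K := by
  classical
  have hcard : ∀ s ∈ 𝒜.shatterer, s.card < K := by
    intro s hs
    rw [Finset.mem_shatterer] at hs
    by_contra hcon
    push Not at hcon
    apply hK
    -- an injection Fin K → s
    have e : Fin K ↪ s := by
      have : Nonempty (Fin K ↪ s) := by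
        rw [Function.Embedding.nonempty_iff_card_le]
        simpa using hcon
      exact this.some
    refine ⟨fun i => g (e i).1, ?_⟩
    intro J
    obtain ⟨A, hA, hsA⟩ := hs (t := (Finset.univ.filter (fun i : Fin K => i ∈ J)).image (fun i => (e i).1))
      (by
        intro x hx
        rw [Finset.mem_image] at hx
        obtain ⟨i, -, rfl⟩ := hx
        exact (e i).2)
    obtain ⟨x, hx⟩ := h𝒜 A hA
    refine ⟨x, fun i => ?_⟩
    rw [hx]
    have h1 : ((e i).1 ∈ A) ↔ (e i).1 ∈ s ∩ A := by simp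
    rw [h1, hsA, Finset.mem_image]
    constructor
    · rintro ⟨i', hi', h⟩
      have : i' = i := e.injective (Subtype.ext h)
      subst this
      simpa using hi'
    · intro h
      exact ⟨i, by simpa using h, rfl⟩
  have h1 : 𝒜.card ≤ 𝒜.shatterer.card := Finset.card_le_card_shatterer 𝒜
  have h2 : 𝒜.shatterer ⊆ (Finset.range K).biUnion (fun k => Finset.powersetCard k (Finset.univ : Finset (Fin n))) := by
    intro s hs
    rw [Finset.mem_biUnion]
    exact ⟨s.card, Finset.mem_range.2 (hcard s hs), by simp [Finset.mem_powersetCard]⟩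
  have h3 : ((Finset.range K).biUnion (fun k => Finset.powersetCard k (Finset.univ : Finset (Fin n)))).card ≤ K * (n + 1) ^ K := by
    refine (Finset.card_biUnion_le).trans ?_
    have : ∀ k ∈ Finset.range K, (Finset.powersetCard k (Finset.univ : Finset (Fin n))).card ≤ (n + 1) ^ K := by
      intro k hk
      rw [Finset.card_powersetCard, Finset.card_univ, Fintype.card_fin]
      calc n.choose k ≤ n ^ k := Nat.choose_le_pow n k
        _ ≤ (n + 1) ^ k := Nat.pow_le_pow_left (Nat.le_succ n) k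
        _ ≤ (n + 1) ^ K := Nat.pow_le_pow_right (Nat.succ_pos n) (Finset.mem_range.1 hk).le
    refine (Finset.sum_le_card_nsmul _ _ _ this).trans ?_
    simp
  exact h1.trans ((Finset.card_le_card h2).trans h3)

theorem exists_pow_lt (A D : ℕ) : ∃ n : ℕ, A * (n + 1) ^ D < 2 ^ n := by
  have h := tendsto_pow_const_div_const_pow_of_one_lt D (r := (2 : ℝ)) (by norm_num)
  have h2 : Tendsto (fun n : ℕ => (((n + 1 : ℕ) : ℝ)) ^ D / (2 : ℝ) ^ (n + 1)) atTop (𝓝 0) :=
    (tendsto_add_atTop_iff_nat 1).2 h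
  have h3 : Tendsto (fun n : ℕ => (2 * A : ℝ) * ((((n + 1 : ℕ) : ℝ)) ^ D / (2 : ℝ) ^ (n + 1))) atTop (𝓝 0) := by
    simpa using h2.const_mul (2 * A : ℝ)
  have h4 := h3.eventually (gt_mem_nhds (show (0 : ℝ) < 1 by norm_num))
  obtain ⟨n, hn⟩ := h4.exists
  refine ⟨n, ?_⟩
  have h5 : (2 * A : ℝ) * ((((n + 1 : ℕ) : ℝ)) ^ D / (2 : ℝ) ^ (n + 1)) = (A * (((n + 1 : ℕ) : ℝ)) ^ D) / 2 ^ n := by
    rw [pow_succ (2 : ℝ) n]
    field_simp
  rw [h5, div_lt_one (by positivity)] at hn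
  exact_mod_cast hn

/-- The core contradiction. -/
theorem not_NH [CompactSpace S] [T2Space S] (hD : Dyn ι) (hI : MinIdeal I) {u h : S}
    (hu : Idem I u) (hh : NH ι I u h)
    (hVC : ∀ p q : S, p ≠ q → ∃ C : Set S, IsClopen C ∧ p ∈ C ∧ q ∉ C ∧ ∃ K, VCle ι C K) :
    False := by
  classical
  have h1 : ∀ p : I, ∃ C : Set S, IsClopen C ∧ p.1 ∈ C ∧ p.1 * h ∉ C ∧ ∃ K, VCle ι C K := by
    rintro ⟨p, hp⟩
    exact hVC _ _ (hh.mul_ne hI hu hp).symm
  choose C hC hpC hphC K hK using h1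
  obtain ⟨t, ht⟩ := (isCompact_ideal hD hI).elim_finite_subcover
    (fun p : I => {q | q ∈ C p ∧ q * h ∉ C p})
    (fun p => (hC p).isOpen.inter (((hC p).compl.isOpen).preimage (hD.cont_right h)))
    (by
      intro p hp
      exact mem_iUnion.2 ⟨⟨p, hp⟩, hpC ⟨p, hp⟩, hphC ⟨p, hp⟩⟩)
  set f : S → Set t := fun q => {p | q ∈ C p.1} with hfdef
  have hf : ∀ p : S, IsOpen {q | f q = f p} := by
    intro p
    have : {q | f q = f p} = ⋂ i : t, {q | q ∈ C i.1 ↔ p ∈ C i.1} := by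
      ext q
      simp only [hfdef, mem_ofPred_eq, mem_iInter, Set.ext_iff]
    rw [this]
    refine isOpen_iInter_of_finite fun i => ?_
    by_cases hp : p ∈ C i.1
    · simp only [hp, iff_true]
      exact (hC i.1).isOpen
    · simp only [hp, iff_false]
      exact (hC i.1).compl.isOpen
  have hfh : ∀ p ∈ I, f (p * h) ≠ f p := by
    intro p hp heq
    have h2 := ht hp
    rw [mem_iUnion₂] at h2
    obtain ⟨i, hi, hi1, hi2⟩ := h2
    have h3 : (⟨i, hi⟩ : t) ∈ f p := hi1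
    rw [← heq] at h3
    exact hi2 h3
  -- pick n
  obtain ⟨n, hn⟩ := exists_pow_lt (∏ i : t, K i.1) (∑ i : t, K i.1)
  obtain ⟨w, hw, g, T, hT, hTc⟩ := tree hD hI hu hh f hf hfh n
  -- families
  set 𝒜 : t → Finset (Finset (Fin n)) := fun i =>
    T.image (fun s => Finset.univ.filter (fun j => i ∈ s j)) with h𝒜
  have h𝒜c : ∀ i, (𝒜 i).card ≤ K i.1 * (n + 1) ^ K i.1 := by
    intro i
    apply vc_count (hK i.1) g
    intro A hA
    rw [h𝒜, Finset.mem_image] at hA
    obtain ⟨s, hs, rfl⟩ := hA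
    obtain ⟨c, hc, hcs⟩ := hTc s hs
    refine ⟨c, fun j => ?_⟩
    simp only [Finset.mem_filter, Finset.mem_univ, true_and]
    rw [← hcs j]
    rfl
  have hTle : T.card ≤ (Fintype.piFinset 𝒜).card := by
    apply Finset.card_le_card_of_injOn (fun s i => Finset.univ.filter (fun j => i ∈ s j))
    · intro s hs
      rw [Finset.mem_coe, Fintype.mem_piFinset]
      intro i
      rw [h𝒜, Finset.mem_image]
      exact ⟨s, hs, rfl⟩
    · intro s hs s' hs' heq
      funext j
      ext i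
      have := congrFun heq i
      have := congrArg (fun A : Finset (Fin n) => j ∈ A) this
      simpa using this
  rw [Fintype.card_piFinset] at hTle
  have h5 : ∏ i, (𝒜 i).card ≤ (∏ i : t, K i.1) * (n + 1) ^ (∑ i : t, K i.1) := by
    calc ∏ i, (𝒜 i).card ≤ ∏ i : t, (K i.1 * (n + 1) ^ K i.1) :=
          Finset.prod_le_prod' (fun i _ => h𝒜c i)
      _ = (∏ i : t, K i.1) * (n + 1) ^ (∑ i : t, K i.1) := by
          rw [Finset.prod_mul_distrib, Finset.prod_pow_eq_pow_sum]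
  omega

/-- Separation by τ-open sets. -/
theorem separated [CompactSpace S] [T2Space S] (hD : Dyn ι) (hI : MinIdeal I) {u : S}
    (hu : Idem I u)
    (hVC : ∀ p q : S, p ≠ q → ∃ C : Set S, IsClopen C ∧ p ∈ C ∧ q ∉ C ∧ ∃ K, VCle ι C K)
    {a b : S} (ha : a ∈ grp I u) (hb : b ∈ grp I u) (hab : a ≠ b) :
    ∃ O1 O2, OpenAt ι I u O1 ∧ OpenAt ι I u O2 ∧ a ∈ O1 ∧ b ∈ O2 ∧ Disjoint O1 O2 := by
  by_contra hcon
  push Not at hcon
  obtain ⟨a', ha', h1, h2⟩ := exists_inv hI hu ha.1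
  have h2 := h2 u hu ha.2
  apply not_NH hD hI hu (h := a' * b) ?_ hVC
  refine ⟨mem_grp_mul hI ha'.2 hb.1, ?_, ?_⟩
  · intro h3
    apply hab
    have : a * (a' * b) = a * u := by rw [h3]
    rw [← mul_assoc, h2, hb.2, mul_idem hI ha.1 hu] at this
    exact this.symm
  · intro O hO huO
    by_contra h4
    have hO1 := openAt_preimage hD hI hu ha ha' h2 h1 hO
    have hO2 := openAt_preimage hD hI hu ha ha' h2 h1 (openAt_compl_cl (I := I) hD hu.2 O)
    refine hcon _ _ hO1 hO2 ⟨ha, ?_⟩ ⟨hb, mem_grp_mul hI ha'.2 hb.1, h4⟩ ?_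
    · rw [h1]; exact huO
    · rw [Set.disjoint_left]
      rintro x ⟨hx, hx1⟩ ⟨-, -, hx2⟩
      exact hx2 (subset_cl hD hO.1 hx1)

/-- The τ-topology. -/
theorem exists_topology [CompactSpace S] [T2Space S] (hD : Dyn ι) (hI : MinIdeal I) {u : S}
    (hu : Idem I u)
    (hVC : ∀ p q : S, p ≠ q → ∃ C : Set S, IsClopen C ∧ p ∈ C ∧ q ∉ C ∧ ∃ K, VCle ι C K) :
    ∃ t : TopologicalSpace ↥(grp I u),
      (∀ A : Set ↥(grp I u), IsClosed[t] A ↔ cl ι I u (Subtype.val '' A) = Subtype.val '' A) ∧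
      @T2Space _ t := by
  have hsub : ∀ A : Set ↥(grp I u), Subtype.val '' A ⊆ grp I u := by
    rintro A _ ⟨x, -, rfl⟩
    exact x.2
  have hiff : ∀ A : Set ↥(grp I u), cl ι I u (Subtype.val '' A) = Subtype.val '' A ↔
      cl ι I u (Subtype.val '' A) ⊆ Subtype.val '' A := by
    intro A
    constructor
    · intro h; exact h.le
    · intro h; exact Subset.antisymm h (subset_cl hD (hsub A))
  let t : TopologicalSpace ↥(grp I u) := TopologicalSpace.ofClosed
    {A | cl ι I u (Subtype.val '' A) ⊆ Subtype.val '' A}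
    (by
      show cl ι I u (Subtype.val '' (∅ : Set ↥(grp I u))) ⊆ _
      rw [image_empty]
      intro x hx
      have := hx.2
      rw [circ_empty] at this
      exact this.elim)
    (by
      intro 𝒮 h𝒮 x hx
      refine ⟨⟨x, hx.1⟩, ?_, rfl⟩
      rw [mem_sInter]
      intro A hA
      have h1 := h𝒮 hA (cl_mono (image_mono (sInter_subset_of_mem hA)) hx)
      obtain ⟨y, hy, hyx⟩ := h1
      have : y = ⟨x, hx.1⟩ := Subtype.ext hyx
      rwa [this] at hy)
    (by
      intro A hA B hB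
      show cl ι I u (Subtype.val '' (A ∪ B)) ⊆ _
      rw [image_union]
      intro x hx
      rcases cl_union hx with h | h
      · exact Or.inl (hA h)
      · exact Or.inr (hB h))
  have hclosed : ∀ A : Set ↥(grp I u), IsClosed[t] A ↔ cl ι I u (Subtype.val '' A) ⊆ Subtype.val '' A := by
    intro A
    rw [← @isOpen_compl_iff _ _ t]
    show Aᶜᶜ ∈ {A : Set ↥(grp I u) | cl ι I u (Subtype.val '' A) ⊆ Subtype.val '' A} ↔ _
    rw [compl_compl]
    rfl
  have hopen : ∀ O : Set S, OpenAt ι I u O → IsOpen[t] (Subtype.val ⁻¹' O : Set ↥(grp I u)) := by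
    intro O hO
    rw [← @isClosed_compl_iff _ t, hclosed]
    have : Subtype.val '' ((Subtype.val ⁻¹' O : Set ↥(grp I u))ᶜ) = grp I u \ O := by
      ext x
      constructor
      · rintro ⟨y, hy, rfl⟩
        exact ⟨y.2, hy⟩
      · rintro ⟨hx, hx'⟩
        exact ⟨⟨x, hx⟩, hx', rfl⟩
    rw [this]
    exact hO.2
  refine ⟨t, fun A => (hclosed A).trans (hiff A).symm, ?_⟩
  refine @T2Space.mk _ t ?_
  rintro ⟨a, ha⟩ ⟨b, hb⟩ hab
  obtain ⟨O1, O2, hO1, hO2, haO, hbO, hdisj⟩ := separated hD hI hu hVC ha hb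
    (fun h => hab (Subtype.ext h))
  refine ⟨_, _, hopen O1 hO1, hopen O2 hO2, haO, hbO, ?_⟩
  exact hdisj.preimage _

end Pool.Agent.H55.TauDyn
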