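import Pool.Agent.H55.TauTop

open FirstOrder FirstOrder.Language Set Filter Topology Cardinal

namespace Pool.Agent.H55.Tau

set_option linter.unusedSectionVars false
set_option linter.unusedVariables false

universe u v w

variable {L : FirstOrder.Language.{u, v}} {M N : Type w} [L.Structure M] [L.Structure N] {k : ℕ}
variable {G : DefGroup L M k} {e : M ↪ₑ[L] N}

/-- shattering passes down from an elementary extension -/
theorem shattered_of_ext (e : M ↪ₑ[L] N) {m n : ℕ} (φ : L.Formula (Fin m ⊕ Fin n)) (K : ℕ)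
    (h : Shattered N φ K) : Shattered M φ K := by
  classical
  let ρ : Fin K → Set (Fin K) → (Fin m ⊕ Fin n) →
      Empty ⊕ ((Fin K × Fin m) ⊕ (Set (Fin K) × Fin n)) := fun i J =>
    Sum.elim (fun s => Sum.inr (Sum.inl (i, s))) (fun t => Sum.inr (Sum.inr (J, t)))
  let Φ : L.Formula (Empty ⊕ ((Fin K × Fin m) ⊕ (Set (Fin K) × Fin n))) :=
    Formula.iInf (fun iJ : Fin K × Set (Fin K) =>
      if iJ.1 ∈ iJ.2 then φ.relabel (ρ iJ.1 iJ.2) else ∼(φ.relabel (ρ iJ.1 iJ.2)))
  have key : ∀ (P : Type w) [L.Structure P] (v : Empty → P)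
      (x : (Fin K × Fin m) ⊕ (Set (Fin K) × Fin n) → P),
      Φ.Realize (fun s => Sum.elim v x s) ↔
        ∀ (i : Fin K) (J : Set (Fin K)),
          (φ.Realize (Sum.elim (fun s => x (Sum.inl (i, s))) (fun t => x (Sum.inr (J, t)))) ↔
            i ∈ J) := by
    intro P _ v x
    show (Formula.iInf _).Realize _ ↔ _
    rw [Formula.realize_iInf]
    have h1 : ∀ i J, (fun s => Sum.elim v x s) ∘ (ρ i J) =
        Sum.elim (fun s => x (Sum.inl (i, s))) (fun t => x (Sum.inr (J, t))) := by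
      intro i J
      funext s; rcases s with s | s <;> rfl
    constructor
    · intro h i J
      have h2 := h (i, J)
      by_cases hiJ : i ∈ J
      · simp only [hiJ, if_true] at h2
        rw [Formula.realize_relabel, h1] at h2
        exact ⟨fun _ => hiJ, fun _ => h2⟩
      · simp only [hiJ, if_false] at h2
        rw [Formula.realize_not, Formula.realize_relabel, h1] at h2
        exact ⟨fun h => absurd h h2, fun h => absurd h hiJ⟩
    · rintro h ⟨i, J⟩
      have h2 := h i J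
      by_cases hiJ : i ∈ J
      · simp only [hiJ, if_true]
        rw [Formula.realize_relabel, h1]
        exact h2.2 hiJ
      · simp only [hiJ, if_false]
        rw [Formula.realize_not, Formula.realize_relabel, h1]
        exact fun h => hiJ (h2.1 h)
  obtain ⟨a, ha⟩ := h
  choose b hb using ha
  have hN : (Formula.iExs _ Φ).Realize (e ∘ (Empty.elim : Empty → M)) := by
    rw [Formula.realize_iExs]
    refine ⟨Sum.elim (fun is => a is.1 is.2) (fun Jt => b Jt.1 Jt.2), ?_⟩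
    rw [key]
    intro i J
    exact hb J i
  rw [e.map_formula, Formula.realize_iExs] at hN
  obtain ⟨x, hx⟩ := hN
  rw [key] at hx
  exact ⟨fun i s => x (Sum.inl (i, s)), fun J => ⟨fun t => x (Sum.inr (J, t)), fun i => hx i J⟩⟩

/-- every formula over `N` is of the form `φ'(n, x)` with a finite tuple `n` of parameters -/
theorem exists_params (φ : L.Formula (N ⊕ Fin k)) : ∃ (l : ℕ) (n : Fin l → N)
    (φ' : L.Formula (Fin l ⊕ Fin k)), ∀ x : Fin k → N,
      φ'.Realize (Sum.elim n x) ↔ holds φ x := by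
  classical
  have hfin : Finite {n : N // (Sum.inl n : N ⊕ Fin k) ∈ φ.freeVarFinset} := by
    have : {n : N | (Sum.inl n : N ⊕ Fin k) ∈ φ.freeVarFinset}.Finite := by
      have : {n : N | (Sum.inl n : N ⊕ Fin k) ∈ φ.freeVarFinset} =
        Sum.inl ⁻¹' (φ.freeVarFinset : Set (N ⊕ Fin k)) := rfl
      rw [this]
      exact (Finset.finite_toSet _).preimage Sum.inl_injective.injOn
    exact this.to_subtype
  obtain ⟨l, ⟨eqv⟩⟩ := Finite.exists_equiv_fin {n : N // (Sum.inl n : N ⊕ Fin k) ∈ φ.freeVarFinset}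
  let f : φ.freeVarFinset → Fin l ⊕ Fin k := fun s =>
    match s with
    | ⟨Sum.inl n, h⟩ => Sum.inl (eqv ⟨n, h⟩)
    | ⟨Sum.inr i, _⟩ => Sum.inr i
  refine ⟨l, fun i => (eqv.symm i).1, φ.restrictFreeVar f, ?_⟩
  intro x
  apply BoundedFormula.realize_restrictFreeVar (Sum.elim (fun n : N => n) x)
  rintro ⟨s | s, hs⟩
  · show ((eqv.symm (eqv ⟨s, hs⟩))).1 = s
    rw [Equiv.symm_apply_apply]
  · rfl

section

variable [Nonempty M]

theorem vc_basic (hsat : IsSaturated L (Order.succ #M) N) (hNIP : IsNIP L M)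
    (φ : L.Formula (N ⊕ Fin k)) :
    ∃ K, @TauDyn.VCle (SGfs G e) (semi hsat) G.Pt (tp e) (basic G e φ) K := by
  classical
  obtain ⟨l, n, φ', hφ'⟩ := exists_params φ
  let ψ : L.Formula (Fin k ⊕ Fin (l + k)) := (prodF G φ').relabel
    (Sum.elim (Sum.elim (fun i => Sum.inr (Fin.castAdd k i)) Sum.inl)
      (fun i => Sum.inr (Fin.natAdd l i)))
  have hψ : ∀ y x : Fin k → N, ψ.Realize (Sum.elim y (Fin.append n x)) ↔
      holds (leftTr G y φ) x := by
    intro y x
    show (Formula.relabel _ _).Realize _ ↔ _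
    rw [Formula.realize_relabel, holds_leftTr]
    have : (Sum.elim y (Fin.append n x)) ∘
      (Sum.elim (Sum.elim (fun i => Sum.inr (Fin.castAdd k i)) Sum.inl)
        (fun i => Sum.inr (Fin.natAdd l i)) : (Fin l ⊕ Fin k) ⊕ Fin k → Fin k ⊕ Fin (l + k)) =
        Sum.elim (Sum.elim n y) x := by
      funext i; rcases i with (i | i) | i
      · simp
      · rfl
      · simp
    rw [this, realize_prodF]
    apply exists_congr
    intro z
    rw [hφ']
  obtain ⟨K, hK⟩ := hNIP _ _ ψ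
  refine ⟨K, ?_⟩
  rintro ⟨g, hg⟩
  apply hK
  apply shattered_of_ext e
  refine ⟨fun i => emb e (g i), fun J => ?_⟩
  obtain ⟨x, hx⟩ := hg J
  have hx' : ∀ i, leftTr G (emb e (g i)) φ ∈ x.carrier ↔ i ∈ J := by
    intro i
    rw [← hx i, ← mem_tp_op_iff hsat]
    exact Iff.rfl
  obtain ⟨h, hh⟩ := x.exists_pt
    (Finset.univ.image (fun i => if i ∈ J then leftTr G (emb e (g i)) φ else
      ∼(leftTr G (emb e (g i)) φ))) (by
    intro χ hχ
    rw [Finset.mem_image] at hχ
    obtain ⟨i, -, rfl⟩ := hχ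
    by_cases hi : i ∈ J
    · simp only [hi, if_true]
      exact (hx' i).2 hi
    · simp only [hi, if_false]
      rw [x.not_mem_iff, hx' i]
      exact hi)
  refine ⟨Fin.append n (emb e h), fun i => ?_⟩
  rw [hψ]
  have h1 := hh _ (Finset.mem_image_of_mem _ (Finset.mem_univ i))
  by_cases hi : i ∈ J
  · simp only [hi, if_true] at h1
    exact ⟨fun _ => hi, fun _ => h1⟩
  · simp only [hi, if_false] at h1
    rw [holds_not] at h1
    exact ⟨fun h => absurd h h1, fun h => absurd h hi⟩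

theorem circ_eq (hsat : IsSaturated L (Order.succ #M) N) (p : SGfs G e) (A : Set (SGfs G e)) :
    circ op p A = @TauDyn.circ (SGfs G e) _ (semi hsat) G.Pt (tp e) p A := by
  let _ := semi (G := G) (e := e) hsat
  ext x
  constructor
  · rintro ⟨D, _, _, _, g, a, ha, hg, hga⟩ U hU W hW
    obtain ⟨i, hi1, hi2⟩ := ((hg.eventually_mem hU).and (hga.eventually_mem hW)).exists
    exact ⟨g i, hi1, a i, ha i, hi2⟩
  · intro h
    let D : Type (max u v w) := {V : Set (SGfs G e) × Set (SGfs G e) // V.1 ∈ 𝓝 p ∧ V.2 ∈ 𝓝 x}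
    let pre : Preorder D :=
      { le := fun V V' => V'.1.1 ⊆ V.1.1 ∧ V'.1.2 ⊆ V.1.2
        lt := fun V V' => (V'.1.1 ⊆ V.1.1 ∧ V'.1.2 ⊆ V.1.2) ∧
          ¬ (V.1.1 ⊆ V'.1.1 ∧ V.1.2 ⊆ V'.1.2)
        lt_iff_le_not_ge := fun _ _ => Iff.rfl
        le_refl := fun V => ⟨Subset.rfl, Subset.rfl⟩
        le_trans := fun V V' V'' h1 h2 => ⟨h2.1.trans h1.1, h2.2.trans h1.2⟩ }
    have hdir : @IsDirectedOrder D pre.toLE := ⟨fun V V' =>
      ⟨⟨(V.1.1 ∩ V'.1.1, V.1.2 ∩ V'.1.2), inter_mem V.2.1 V'.2.1, inter_mem V.2.2 V'.2.2⟩,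
        ⟨inter_subset_left, inter_subset_left⟩, ⟨inter_subset_right, inter_subset_right⟩⟩⟩
    have hne : Nonempty D := ⟨⟨(Set.univ, Set.univ), univ_mem, univ_mem⟩⟩
    have h' : ∀ V : D, ∃ g : G.Pt, ∃ a : SGfs G e, tp e g ∈ V.1.1 ∧ a ∈ A ∧
        op (tp e g) a ∈ V.1.2 := by
      intro V
      obtain ⟨g, hg, a, ha, hga⟩ := h V.1.1 V.2.1 V.1.2 V.2.2
      exact ⟨g, a, hg, ha, hga⟩
    choose g a hg ha hga using h'
    refine ⟨D, pre, hdir, hne, g, a, ha, ?_, ?_⟩
    · rw [tendsto_atTop']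
      intro U hU
      refine ⟨⟨(U, Set.univ), hU, univ_mem⟩, fun V hV => ?_⟩
      exact hV.1 (hg V)
    · rw [tendsto_atTop']
      intro W hW
      refine ⟨⟨(Set.univ, W), univ_mem, hW⟩, fun V hV => ?_⟩
      exact hV.2 (hga V)

theorem idealGroup_eq {I : Set (SGfs G e)} (hI : IsMinimalLeftIdeal op I)
    {u : SGfs G e} (hu : u ∈ I) (huu : op u u = u) (hsat : IsSaturated L (Order.succ #M) N) :
    idealGroup op I u = @TauDyn.grp (SGfs G e) (semi hsat) I u := by
  let _ := semi (G := G) (e := e) hsat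
  ext x
  constructor
  · rintro ⟨y, hy, rfl⟩
    refine ⟨hI.left _ _ hy, ?_⟩
    show op u (op u y) = op u y
    rw [← op_assoc hsat, huu]
  · rintro ⟨hx, hx'⟩
    exact ⟨x, hx, hx'⟩

end

/-- Main theorem. -/
theorem main (L : FirstOrder.Language.{u, v}) (M N : Type w) [L.Structure M] [L.Structure N]
    [Nonempty M] (hNIP : IsNIP L M) (e : M ↪ₑ[L] N)
    (hsat : IsSaturated L (Order.succ #M) N) (k : ℕ) (G : DefGroup L M k) :
    ∃ op : SGfs G e → SGfs G e → SGfs G e, (∀ p q r : SGfs G e, IsProd p q r ↔ r = op p q) ∧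
      ∀ I : Set (SGfs G e), IsMinimalLeftIdeal op I → ∀ u ∈ I, op u u = u →
        ∃ t : TopologicalSpace ↥(idealGroup op I u),
          (∀ A : Set ↥(idealGroup op I u),
            IsClosed[t] A ↔ clTau op I u (Subtype.val '' A) = Subtype.val '' A) ∧
          @T2Space _ t := by
  refine ⟨op, isProd_iff hsat, ?_⟩
  intro I hI u hu huu
  let _ := semi (G := G) (e := e) hsat
  have hI' : TauDyn.MinIdeal I := ⟨hI.nonempty, hI.left, hI.minimal⟩
  have hVC : ∀ p q : SGfs G e, p ≠ q → ∃ C : Set (SGfs G e), IsClopen C ∧ p ∈ C ∧ q ∉ C ∧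
      ∃ K, TauDyn.VCle (tp e) C K := by
    intro p q hpq
    have : ∃ φ, ¬ (φ ∈ p.carrier ↔ φ ∈ q.carrier) := by
      by_contra hcon
      push Not at hcon
      exact hpq (SGfs.ext (Set.ext hcon))
    obtain ⟨φ, hφ⟩ := this
    by_cases h : φ ∈ p.carrier
    · have h' : φ ∉ q.carrier := fun h' => hφ ⟨fun _ => h', fun _ => h⟩
      exact ⟨basic G e φ, isClopen_basic φ, h, h', vc_basic hsat hNIP φ⟩
    · have h' : φ ∈ q.carrier := by
        by_contra h'
        exact hφ ⟨fun h1 => absurd h1 h, fun h1 => absurd h1 h'⟩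
      refine ⟨basic G e (∼φ), isClopen_basic _, (p.not_mem_iff φ).2 h, ?_, vc_basic hsat hNIP (∼φ)⟩
      intro h1
      exact (q.not_mem_iff φ).1 h1 h'
  obtain ⟨t, ht, ht2⟩ := TauDyn.exists_topology (dyn hsat) hI' (u := u) ⟨hu, huu⟩ hVC
  have hg := idealGroup_eq hI hu huu hsat
  have key : ∀ X : Set (SGfs G e), X = TauDyn.grp I u →
      ∃ t : TopologicalSpace ↥X, (∀ A : Set ↥X,
        IsClosed[t] A ↔ X ∩ circ op u (Subtype.val '' A) = Subtype.val '' A) ∧ @T2Space _ t := by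
    rintro X rfl
    refine ⟨t, fun A => ?_, ht2⟩
    rw [ht A, circ_eq hsat]
    exact Iff.rfl
  exact key _ hg

end Pool.Agent.H55.Tau
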