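import Pool.Agent.H55.TauTypes

open FirstOrder FirstOrder.Language Set Filter Topology Cardinal

namespace Pool.Agent.H55.Tau

set_option linter.unusedSectionVars false
set_option linter.unusedVariables false

universe u v w

variable {L : FirstOrder.Language.{u, v}} {M N : Type w} [L.Structure M] [L.Structure N] {k : ℕ}
variable {G : DefGroup L M k} {e : M ↪ₑ[L] N}

/-- the formula `φ(x_last · b)`: variables `(N, b)` then `x_last`. -/
noncomputable def swapF (G : DefGroup L M k) (φ : L.Formula (N ⊕ Fin k)) :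
    L.Formula ((N ⊕ Fin k) ⊕ Fin k) :=
  (prodF G φ).relabel (Sum.elim (Sum.elim (fun n => Sum.inl (Sum.inl n)) Sum.inr)
    (fun i => Sum.inl (Sum.inr i)))

theorem realize_swapF {N' : Type w} [L.Structure N'] (φ : L.Formula (N ⊕ Fin k)) (j : N → N')
    (b y : Fin k → N') :
    (swapF G φ).Realize (Sum.elim (Sum.elim j b) y) ↔
      ∃ z : Fin k → N', G.dom.Realize z ∧ G.mul.Realize (Sum.elim y (Sum.elim b z)) ∧
        φ.Realize (Sum.elim j z) := by
  unfold swapF
  rw [Formula.realize_relabel, ← realize_prodF]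
  have : (Sum.elim (Sum.elim j b) y) ∘
      (Sum.elim (Sum.elim (fun n => Sum.inl (Sum.inl n)) Sum.inr)
        (fun i => Sum.inl (Sum.inr i)) :
        (N ⊕ Fin k) ⊕ Fin k → (N ⊕ Fin k) ⊕ Fin k) = Sum.elim (Sum.elim j y) b := by
    funext i; rcases i with (i | i) | i <;> rfl
  rw [this]

theorem SGfs.RealizedBy.iff {p : SGfs G e} {N' : Type w} [L.Structure N'] {j : N ↪ₑ[L] N'}
    {a : Fin k → N'} (h : p.RealizedBy j a) (φ : L.Formula (N ⊕ Fin k)) :
    φ.Realize (Sum.elim j a) ↔ φ ∈ p.carrier := by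
  constructor
  · intro h1
    by_contra hcon
    have := h _ ((p.not_mem_iff φ).2 hcon)
    rw [Formula.realize_not] at this
    exact this h1
  · exact h φ

theorem SGfs.RealizedBy.dom {p : SGfs G e} {N' : Type w} [L.Structure N'] {j : N ↪ₑ[L] N'}
    {a : Fin k → N'} (h : p.RealizedBy j a) : G.dom.Realize a := by
  have := h _ p.dom_mem
  rw [Formula.realize_relabel] at this
  exact this

theorem realize_comp {N' : Type w} [L.Structure N'] (j : N ↪ₑ[L] N')
    (φ : L.Formula (N ⊕ Fin k)) (x : Fin k → N) :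
    φ.Realize (Sum.elim j (fun i => j (x i))) ↔ holds φ x := by
  unfold holds
  rw [← j.map_formula]
  have : (j ∘ Sum.elim (fun n : N => n) x) = Sum.elim j (fun i => j (x i)) := by
    funext i; rcases i with i | i <;> rfl
  rw [this]

theorem IsProd.mem_imp {p q r : SGfs G e} (h : IsProd p q r) (φ : L.Formula (N ⊕ Fin k))
    {b₀ : Fin k → N} (hb : Good q φ b₀) (hφ : φ ∈ r.carrier) :
    rightTr G b₀ φ ∈ p.carrier := by
  obtain ⟨N', _, j, a, b, c, hpa, hqb, hfs, hmul, hrc⟩ := h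
  by_contra hcon
  have h1 := hpa _ ((p.not_mem_iff _).2 hcon)
  have h2 : ¬ (rightTr G b₀ φ).Realize (Sum.elim j a) := by
    rwa [Formula.realize_not] at h1
  -- the formula θ
  let θ : L.Formula ((N ⊕ Fin k) ⊕ Fin k) :=
    (swapF G φ ⊓ ∼((rightTr G b₀ φ).relabel (Sum.elim (fun n => Sum.inl (Sum.inl n)) Sum.inr))) ⊓
      G.dom.relabel Sum.inr
  have hθ : ∀ y : Fin k → N', θ.Realize (Sum.elim (Sum.elim j b) y) ↔
      ((∃ z : Fin k → N', G.dom.Realize z ∧ G.mul.Realize (Sum.elim y (Sum.elim b z)) ∧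
        φ.Realize (Sum.elim j z)) ∧ ¬ (rightTr G b₀ φ).Realize (Sum.elim j y)) ∧
        G.dom.Realize y := by
    intro y
    show (Formula.Realize ((swapF G φ ⊓ ∼((rightTr G b₀ φ).relabel
      (Sum.elim (fun n => Sum.inl (Sum.inl n)) Sum.inr))) ⊓ G.dom.relabel Sum.inr) _) ↔ _
    rw [Formula.realize_inf, Formula.realize_inf, realize_swapF, Formula.realize_not,
      Formula.realize_relabel, Formula.realize_relabel]
    have e1 : (Sum.elim (Sum.elim j b) y) ∘
        (Sum.elim (fun n => Sum.inl (Sum.inl n)) Sum.inr :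
          N ⊕ Fin k → (N ⊕ Fin k) ⊕ Fin k) = Sum.elim j y := by
      funext i; rcases i with i | i <;> rfl
    have e2 : (Sum.elim (Sum.elim j b) y) ∘ (Sum.inr : Fin k → (N ⊕ Fin k) ⊕ Fin k) = y := rfl
    rw [e1, e2]
  obtain ⟨m, hm⟩ := hfs θ ((hθ a).2 ⟨⟨⟨c, hrc.dom, hmul, hrc φ hφ⟩, h2⟩, hpa.dom⟩)
  rw [hθ] at hm
  obtain ⟨⟨⟨z, hz1, hz2, hz3⟩, hm2⟩, hm3⟩ := hm
  have hdomm : G.dom.Realize m := by
    have : G.dom.Realize ((j.comp e) ∘ m) := hm3
    rwa [(j.comp e).map_formula] at this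
  set g : G.Pt := ⟨m, hdomm⟩ with hg
  -- leftTr g φ ∈ q
  have h3 : leftTr G (emb e g) φ ∈ q.carrier := by
    rw [← hqb.iff, realize_leftTr]
    exact ⟨z, hz1, hz2, hz3⟩
  have h4 : holds (leftTr G (emb e g) φ) b₀ := (hb.2 g).2 h3
  have h5 : holds (rightTr G b₀ φ) (emb e g) := by
    rw [holds_leftTr] at h4
    rw [holds_rightTr]
    exact h4
  apply hm2
  exact (realize_comp j (rightTr G b₀ φ) (emb e g)).2 h5

theorem IsProd.mem_iff {p q r : SGfs G e} (h : IsProd p q r) (φ : L.Formula (N ⊕ Fin k))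
    {b₀ : Fin k → N} (hb : Good q φ b₀) :
    φ ∈ r.carrier ↔ rightTr G b₀ φ ∈ p.carrier := by
  classical
  refine ⟨h.mem_imp φ hb, ?_⟩
  intro h1
  by_contra hcon
  have h2 := h.mem_imp (∼φ) hb.not ((r.not_mem_iff φ).2 hcon)
  obtain ⟨g, hg⟩ := p.exists_pt {rightTr G b₀ φ, rightTr G b₀ (∼φ)} (by
    intro χ hχ
    rw [Finset.mem_insert, Finset.mem_singleton] at hχ
    rcases hχ with rfl | rfl
    · exact h1
    · exact h2)
  have h3 := hg (rightTr G b₀ φ) (by simp)
  have h4 := hg (rightTr G b₀ (∼φ)) (by simp)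
  rw [holds_rightTr, ← holds_leftTr] at h3 h4
  rw [holds_leftTr_not _ _ _ (dom_emb g) hb.1 e] at h4
  exact h4 h3

theorem IsProd.unique (hsat : IsSaturated L (Order.succ #M) N) {p q r r' : SGfs G e}
    (h : IsProd p q r) (h' : IsProd p q r') : r = r' := by
  apply SGfs.ext
  ext φ
  obtain ⟨b₀, hb⟩ := exists_good hsat q φ
  rw [h.mem_iff φ hb, h'.mem_iff φ hb]

/-! ### Existence -/

section existence

/-- diagonal embedding into an ultrapower -/
noncomputable def diag {X : Type w} (𝒰 : Ultrafilter X) (P : Type w) [L.Structure P] [Nonempty P] :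
    P ↪ₑ[L] ((𝒰 : Filter X).Product (fun _ => P)) where
  toFun x := ((fun _ => x : X → P) : (𝒰 : Filter X).Product (fun _ => P))
  map_formula' := by
    intro n φ x
    have := Ultraproduct.realize_formula_cast (u := 𝒰) (M := fun _ : X => P) φ
      (fun i _ => x i)
    refine Iff.trans this ?_
    rw [Filter.eventually_const]

theorem exists_ultrafilter (p : SGfs G e) : ∃ 𝒰 : Ultrafilter (Fin k → M),
    ∀ φ ∈ p.carrier, ∀ᶠ x in (𝒰 : Filter (Fin k → M)), holds φ (fun i => e (x i)) := by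
  classical
  set F : Filter (Fin k → M) :=
    ⨅ φ : p.carrier, 𝓟 {x : Fin k → M | holds φ.1 (fun i => e (x i))} with hF
  have hne : F.NeBot := by
    have hp : Nonempty p.carrier := ⟨⟨_, p.dom_mem⟩⟩
    have hX : Nonempty (Fin k → M) := ⟨(p.finSat ∅ (by simp)).choose⟩
    apply Filter.iInf_neBot_of_directed
    · rintro ⟨φ, hφ⟩ ⟨ψ, hψ⟩
      refine ⟨⟨φ ⊓ ψ, p.inf_mem_iff.2 ⟨hφ, hψ⟩⟩, ?_, ?_⟩
      · simp only [Filter.le_principal_iff, Filter.mem_principal]
        intro x hx
        exact ((holds_inf φ ψ _).1 hx).1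
      · simp only [Filter.le_principal_iff, Filter.mem_principal]
        intro x hx
        exact ((holds_inf φ ψ _).1 hx).2
    · rintro ⟨φ, hφ⟩
      rw [Filter.principal_neBot_iff]
      obtain ⟨x, hx⟩ := p.finSat {φ} (by simpa using hφ)
      exact ⟨x, hx φ (by simp)⟩
  refine ⟨Ultrafilter.of F, fun φ hφ => ?_⟩
  have h1 : (Ultrafilter.of F : Filter (Fin k → M)) ≤ F := Ultrafilter.of_le F
  apply h1
  rw [hF]
  exact Filter.mem_iInf_of_mem ⟨φ, hφ⟩ (Filter.mem_principal_self _)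

theorem exists_isProd [Nonempty M] (p q : SGfs G e) : ∃ r, IsProd p q r := by
  classical
  have : Nonempty N := ⟨e (Classical.arbitrary M)⟩
  obtain ⟨𝒱, h𝒱⟩ := exists_ultrafilter q
  obtain ⟨𝒰, h𝒰⟩ := exists_ultrafilter p
  let N₁ := (𝒱 : Filter (Fin k → M)).Product (fun _ => N)
  let j₁ : N ↪ₑ[L] N₁ := diag 𝒱 N
  have : Nonempty N₁ := ⟨j₁ (Classical.arbitrary N)⟩
  let b₁ : Fin k → N₁ := fun i => ((fun x => e (x i) : (Fin k → M) → N) :
    (𝒱 : Filter (Fin k → M)).Product (fun _ => N))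
  have hb₁ : q.RealizedBy j₁ b₁ := by
    intro φ hφ
    have h1 := Ultraproduct.realize_formula_cast (u := 𝒱) (M := fun _ : (Fin k → M) => N) φ
      (Sum.elim (fun n _ => n) (fun i x => e (x i)))
    have h2 : (fun i : N ⊕ Fin k => ((Sum.elim (fun (n : N) (_ : Fin k → M) => n)
      (fun i (x : Fin k → M) => e (x i)) i : (Fin k → M) → N) :
        (𝒱 : Filter (Fin k → M)).Product (fun _ => N))) = Sum.elim j₁ b₁ := by
      funext i; rcases i with i | i <;> rfl
    rw [h2] at h1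
    refine h1.2 ?_
    filter_upwards [h𝒱 φ hφ] with x hx
    have h3 : (fun i : N ⊕ Fin k => Sum.elim (fun (n : N) (_ : Fin k → M) => n)
      (fun i (x : Fin k → M) => e (x i)) i x) = Sum.elim (fun n : N => n) (fun i => e (x i)) := by
      funext i; rcases i with i | i <;> rfl
    rw [h3]
    exact hx
  let N₂ := (𝒰 : Filter (Fin k → M)).Product (fun _ => N₁)
  let j₂ : N₁ ↪ₑ[L] N₂ := diag 𝒰 N₁
  let j : N ↪ₑ[L] N₂ := j₂.comp j₁
  let a : Fin k → N₂ := fun i => ((fun x => j₁ (e (x i)) : (Fin k → M) → N₁) :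
    (𝒰 : Filter (Fin k → M)).Product (fun _ => N₁))
  let b : Fin k → N₂ := fun i => j₂ (b₁ i)
  -- Łoś for formulas in (N, b, a)
  have los : ∀ θ : L.Formula ((N ⊕ Fin k) ⊕ Fin k),
      θ.Realize (Sum.elim (Sum.elim j b) a) ↔
      ∀ᶠ x in (𝒰 : Filter (Fin k → M)),
        θ.Realize (Sum.elim (Sum.elim j₁ b₁) (fun i => j₁ (e (x i)))) := by
    intro θ
    have h1 := Ultraproduct.realize_formula_cast (u := 𝒰) (M := fun _ : (Fin k → M) => N₁) θ
      (Sum.elim (Sum.elim (fun n _ => j₁ n) (fun i _ => b₁ i)) (fun i x => j₁ (e (x i))))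
    have h2 : (fun i : (N ⊕ Fin k) ⊕ Fin k =>
      ((Sum.elim (Sum.elim (fun (n : N) (_ : Fin k → M) => j₁ n) (fun i _ => b₁ i))
        (fun i x => j₁ (e (x i))) i : (Fin k → M) → N₁) :
        (𝒰 : Filter (Fin k → M)).Product (fun _ => N₁))) = Sum.elim (Sum.elim j b) a := by
      funext i; rcases i with (i | i) | i <;> rfl
    rw [h2] at h1
    refine h1.trans ?_
    apply Filter.eventually_congr
    refine Filter.Eventually.of_forall fun x => ?_
    have h3 : (fun i : (N ⊕ Fin k) ⊕ Fin k =>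
        Sum.elim (Sum.elim (fun (n : N) (_ : Fin k → M) => j₁ n) (fun i _ => b₁ i))
        (fun i x => j₁ (e (x i))) i x) =
        Sum.elim (Sum.elim j₁ b₁) (fun i => j₁ (e (x i))) := by
      funext i; rcases i with (i | i) | i <;> rfl
    rw [h3]
  have hmap : ∀ (θ : L.Formula ((N ⊕ Fin k) ⊕ Fin k)) (y : Fin k → N₁),
      θ.Realize (Sum.elim (Sum.elim j b) (fun i => j₂ (y i))) ↔
        θ.Realize (Sum.elim (Sum.elim j₁ b₁) y) := by
    intro θ y
    rw [← j₂.map_formula]
    have : (j₂ ∘ Sum.elim (Sum.elim j₁ b₁) y) =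
      Sum.elim (Sum.elim j b) (fun i => j₂ (y i)) := by
      funext i; rcases i with (i | i) | i <;> rfl
    rw [this]
  have hfs : ∀ θ : L.Formula ((N ⊕ Fin k) ⊕ Fin k), θ.Realize (Sum.elim (Sum.elim j b) a) →
      ∃ m : Fin k → M, θ.Realize (Sum.elim (Sum.elim j b) (fun i => j (e (m i)))) := by
    intro θ hθ
    rw [los] at hθ
    obtain ⟨x, hx⟩ := hθ.exists
    exact ⟨x, (hmap θ _).2 hx⟩
  have ha : p.RealizedBy j a := by
    intro φ hφ
    have h1 := los (φ.relabel (Sum.elim (fun n => Sum.inl (Sum.inl n)) Sum.inr))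
    rw [Formula.realize_relabel] at h1
    have h2 : (Sum.elim (Sum.elim j b) a) ∘
        (Sum.elim (fun n => Sum.inl (Sum.inl n)) Sum.inr :
          N ⊕ Fin k → (N ⊕ Fin k) ⊕ Fin k) = Sum.elim j a := by
      funext i; rcases i with i | i <;> rfl
    rw [h2] at h1
    rw [h1]
    filter_upwards [h𝒰 φ hφ] with x hx
    rw [Formula.realize_relabel]
    have h3 : (Sum.elim (Sum.elim j₁ b₁) (fun i => j₁ (e (x i)))) ∘
        (Sum.elim (fun n => Sum.inl (Sum.inl n)) Sum.inr :
          N ⊕ Fin k → (N ⊕ Fin k) ⊕ Fin k) = Sum.elim j₁ (fun i => j₁ (e (x i))) := by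
      funext i; rcases i with i | i <;> rfl
    rw [h3]
    exact (realize_comp j₁ φ _).2 hx
  have hb : q.RealizedBy j b := by
    intro φ hφ
    have h1 := hb₁ φ hφ
    rw [← j₂.map_formula] at h1
    have : (j₂ ∘ Sum.elim j₁ b₁) = Sum.elim j b := by
      funext i; rcases i with i | i <;> rfl
    rwa [this] at h1
  obtain ⟨c, ⟨hc1, hc2⟩, -⟩ := exists_unique_mul G (j.comp e) a b ha.dom hb.dom
  let r : SGfs G e :=
    { carrier := {φ | φ.Realize (Sum.elim j c)}
      complete := by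
        intro φ
        simp only [mem_ofPred_eq]
        rw [Formula.realize_not]
        exact em _
      finSat := by
        intro p₀ hp₀
        let Φ : L.Formula (N ⊕ Fin k) := Formula.iInf (fun φ : p₀ => φ.1)
        have hΦ : Φ.Realize (Sum.elim j c) := by
          rw [Formula.realize_iInf]
          intro φ
          exact hp₀ φ.1 φ.2
        have h1 := hfs (swapF G Φ ⊓ G.dom.relabel Sum.inr) (by
          rw [Formula.realize_inf, realize_swapF, Formula.realize_relabel]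
          exact ⟨⟨c, hc1, hc2, hΦ⟩, ha.dom⟩)
        obtain ⟨m, hm⟩ := h1
        rw [Formula.realize_inf, realize_swapF, Formula.realize_relabel] at hm
        obtain ⟨⟨z, hz1, hz2, hz3⟩, hm3⟩ := hm
        have hdomm : G.dom.Realize m := by
          have : G.dom.Realize ((j.comp e) ∘ m) := hm3
          rwa [(j.comp e).map_formula] at this
        set g : G.Pt := ⟨m, hdomm⟩ with hg
        have h3 : leftTr G (emb e g) Φ ∈ q.carrier := by
          rw [← hb.iff, realize_leftTr]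
          exact ⟨z, hz1, hz2, hz3⟩
        obtain ⟨h, hh⟩ := q.exists_pt {leftTr G (emb e g) Φ} (by simpa using h3)
        have h4 := hh _ (Finset.mem_singleton_self _)
        rw [holds_leftTr_pt] at h4
        refine ⟨(g * h).1, fun φ hφ => ?_⟩
        have h5 : holds Φ (emb e (g * h)) := h4
        unfold holds at h5
        rw [Formula.realize_iInf] at h5
        exact h5 ⟨φ, hφ⟩
      dom_mem := by
        show Formula.Realize _ _
        rw [Formula.realize_relabel]
        exact hc1 }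
  exact ⟨r, N₂, inferInstance, j, a, b, c, ha, hb, hfs, hc2, fun φ hφ => hφ⟩

end existence

end Pool.Agent.H55.Tau
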