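import Pool.Agent.H55.TauDefs

open FirstOrder FirstOrder.Language Set Filter Topology Cardinal

namespace Pool.Agent.H55.Tau

universe u v w

variable {L : FirstOrder.Language.{u, v}} {M N : Type w} [L.Structure M] [L.Structure N] {k : ℕ}
variable {G : DefGroup L M k} {e : M ↪ₑ[L] N}

/-! ## Tools -/

section tools

variable {A : Type*} {N' : Type*} [L.Structure N']

/-- the formula `φ(y · x)` -/
noncomputable def prodF (G : DefGroup L M k) (φ : L.Formula (A ⊕ Fin k)) :
    L.Formula ((A ⊕ Fin k) ⊕ Fin k) :=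
  Formula.iExs (Fin k)
    ((G.dom.relabel (Sum.inr : Fin k → ((A ⊕ Fin k) ⊕ Fin k) ⊕ Fin k) ⊓
      G.mul.relabel (Sum.elim (fun i => Sum.inl (Sum.inl (Sum.inr i)))
        (Sum.elim (fun i => Sum.inl (Sum.inr i)) Sum.inr))) ⊓
      φ.relabel (Sum.elim (fun a => Sum.inl (Sum.inl (Sum.inl a))) Sum.inr))

theorem realize_prodF (φ : L.Formula (A ⊕ Fin k)) (j : A → N') (y x : Fin k → N') :
    (prodF G φ).Realize (Sum.elim (Sum.elim j y) x) ↔
      ∃ z : Fin k → N', G.dom.Realize z ∧ G.mul.Realize (Sum.elim y (Sum.elim x z)) ∧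
        φ.Realize (Sum.elim j z) := by
  unfold prodF
  rw [Formula.realize_iExs]
  apply exists_congr
  intro z
  rw [Formula.realize_inf, Formula.realize_inf, Formula.realize_relabel, Formula.realize_relabel,
    Formula.realize_relabel, and_assoc]
  have h1 : (fun a => Sum.elim (Sum.elim (Sum.elim j y) x) z a) ∘
      (Sum.inr : Fin k → ((A ⊕ Fin k) ⊕ Fin k) ⊕ Fin k) = z := by
    funext i; rfl
  have h2 : (fun a => Sum.elim (Sum.elim (Sum.elim j y) x) z a) ∘
      (Sum.elim (fun i => Sum.inl (Sum.inl (Sum.inr i)))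
        (Sum.elim (fun i => Sum.inl (Sum.inr i)) Sum.inr) :
          Fin k ⊕ (Fin k ⊕ Fin k) → ((A ⊕ Fin k) ⊕ Fin k) ⊕ Fin k) =
      Sum.elim y (Sum.elim x z) := by
    funext i; rcases i with i | i | i <;> rfl
  have h3 : (fun a => Sum.elim (Sum.elim (Sum.elim j y) x) z a) ∘
      (Sum.elim (fun a => Sum.inl (Sum.inl (Sum.inl a))) Sum.inr :
        A ⊕ Fin k → ((A ⊕ Fin k) ⊕ Fin k) ⊕ Fin k) = Sum.elim j z := by
    funext i; rcases i with i | i <;> rfl
  rw [h1, h2, h3]

/-- the formula `φ(g · x)` -/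
noncomputable def leftTr (G : DefGroup L M k) (g : Fin k → A) (φ : L.Formula (A ⊕ Fin k)) :
    L.Formula (A ⊕ Fin k) :=
  (prodF G φ).relabel (Sum.elim (Sum.elim Sum.inl (fun i => Sum.inl (g i))) Sum.inr)

theorem realize_leftTr (g : Fin k → A) (φ : L.Formula (A ⊕ Fin k)) (j : A → N')
    (x : Fin k → N') :
    (leftTr G g φ).Realize (Sum.elim j x) ↔
      ∃ z : Fin k → N', G.dom.Realize z ∧
        G.mul.Realize (Sum.elim (fun i => j (g i)) (Sum.elim x z)) ∧
        φ.Realize (Sum.elim j z) := by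
  unfold leftTr
  rw [Formula.realize_relabel, ← realize_prodF]
  have : (Sum.elim j x) ∘
      (Sum.elim (Sum.elim Sum.inl (fun i => Sum.inl (g i))) Sum.inr :
        (A ⊕ Fin k) ⊕ Fin k → A ⊕ Fin k) = Sum.elim (Sum.elim j (fun i => j (g i))) x := by
    funext i; rcases i with (i | i) | i <;> rfl
  rw [this]

/-- the formula `φ(y · b)` -/
noncomputable def rightTr (G : DefGroup L M k) (b : Fin k → A) (φ : L.Formula (A ⊕ Fin k)) :
    L.Formula (A ⊕ Fin k) :=
  (prodF G φ).relabel (Sum.elim (Sum.elim Sum.inl Sum.inr) (fun i => Sum.inl (b i)))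

theorem realize_rightTr (b : Fin k → A) (φ : L.Formula (A ⊕ Fin k)) (j : A → N')
    (y : Fin k → N') :
    (rightTr G b φ).Realize (Sum.elim j y) ↔
      ∃ z : Fin k → N', G.dom.Realize z ∧
        G.mul.Realize (Sum.elim y (Sum.elim (fun i => j (b i)) z)) ∧
        φ.Realize (Sum.elim j z) := by
  unfold rightTr
  rw [Formula.realize_relabel, ← realize_prodF]
  have : (Sum.elim j y) ∘
      (Sum.elim (Sum.elim Sum.inl Sum.inr) (fun i => Sum.inl (b i)) :
        (A ⊕ Fin k) ⊕ Fin k → A ⊕ Fin k) = Sum.elim (Sum.elim j y) (fun i => j (b i)) := by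
    funext i; rcases i with (i | i) | i <;> rfl
  rw [this]

/-- In an elementary extension of `M`, the formula `mul` defines a function on `dom`. -/
theorem exists_unique_mul (G : DefGroup L M k) {N' : Type w} [L.Structure N'] (f : M ↪ₑ[L] N')
    (y x : Fin k → N') (hy : G.dom.Realize y) (hx : G.dom.Realize x) :
    ∃! z : Fin k → N', G.dom.Realize z ∧ G.mul.Realize (Sum.elim y (Sum.elim x z)) := by
  set Ψ : L.Formula (Empty ⊕ (Fin k ⊕ Fin k)) :=
    (G.dom.relabel (fun i => Sum.inr (Sum.inl i)) ⊓ G.dom.relabel (fun i => Sum.inr (Sum.inr i))).imp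
      (Formula.iExsUnique (Fin k) (G.dom.relabel (Sum.inr : Fin k → (Empty ⊕ (Fin k ⊕ Fin k)) ⊕ Fin k) ⊓
        G.mul.relabel (Sum.elim (fun i => Sum.inl (Sum.inr (Sum.inl i)))
          (Sum.elim (fun i => Sum.inl (Sum.inr (Sum.inr i))) Sum.inr)))) with hΨ
  have key : ∀ (P : Type w) [L.Structure P] (v : Empty → P) (y x : Fin k → P),
      Ψ.Realize (Sum.elim v (Sum.elim y x)) ↔ (G.dom.Realize y ∧ G.dom.Realize x →
        ∃! z : Fin k → P, G.dom.Realize z ∧ G.mul.Realize (Sum.elim y (Sum.elim x z))) := by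
    intro P _ v y x
    rw [hΨ, Formula.realize_imp, Formula.realize_inf, Formula.realize_relabel,
      Formula.realize_relabel, Formula.realize_iExsUnique]
    have h1 : (Sum.elim v (Sum.elim y x)) ∘ (fun i => Sum.inr (Sum.inl i)) = y := rfl
    have h2 : (Sum.elim v (Sum.elim y x)) ∘ (fun i => Sum.inr (Sum.inr i)) = x := rfl
    rw [h1, h2]
    apply imp_congr Iff.rfl
    apply existsUnique_congr
    intro z
    rw [Formula.realize_inf, Formula.realize_relabel, Formula.realize_relabel]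
    have h3 : (fun a => Sum.elim (Sum.elim v (Sum.elim y x)) z a) ∘
      (Sum.inr : Fin k → (Empty ⊕ (Fin k ⊕ Fin k)) ⊕ Fin k) = z := rfl
    have h4 : (fun a => Sum.elim (Sum.elim v (Sum.elim y x)) z a) ∘
      (Sum.elim (fun i => Sum.inl (Sum.inr (Sum.inl i)))
          (Sum.elim (fun i => Sum.inl (Sum.inr (Sum.inr i))) Sum.inr)) = Sum.elim y (Sum.elim x z) := by
      funext i; rcases i with i | i | i <;> rfl
    rw [h3, h4]
  have hM : (Formula.iAlls (Fin k ⊕ Fin k) Ψ).Realize (Empty.elim : Empty → M) := by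
    rw [Formula.realize_iAlls]
    intro i
    have hi : (fun a => Sum.elim (Empty.elim : Empty → M) i a) =
      Sum.elim (Empty.elim : Empty → M) (Sum.elim (fun j => i (Sum.inl j)) (fun j => i (Sum.inr j))) := by
      funext j; rcases j with j | j | j <;> rfl
    rw [hi, key M]
    rintro ⟨hy, hx⟩
    refine ⟨(G.group.mul ⟨_, hy⟩ ⟨_, hx⟩).1, ⟨(G.group.mul ⟨_, hy⟩ ⟨_, hx⟩).2, ?_⟩, ?_⟩
    · exact (G.mul_iff ⟨_, hy⟩ ⟨_, hx⟩ _).2 rfl
    · rintro z ⟨hz, hz'⟩
      have := (G.mul_iff ⟨_, hy⟩ ⟨_, hx⟩ ⟨z, hz⟩).1 hz'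
      rw [this]
  have hN' : (Formula.iAlls (Fin k ⊕ Fin k) Ψ).Realize (f ∘ (Empty.elim : Empty → M)) :=
    (f.map_formula _ _).2 hM
  rw [Formula.realize_iAlls] at hN'
  have h5 := hN' (Sum.elim y x)
  exact (key N' _ y x).1 h5 ⟨hy, hx⟩

end tools

end Pool.Agent.H55.Tau
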