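import Pool.Agent.H55.TauProd
import Pool.Agent.H55.TauDyn4

open FirstOrder FirstOrder.Language Set Filter Topology Cardinal

namespace Pool.Agent.H55.Tau

set_option linter.unusedSectionVars false
set_option linter.unusedVariables false

universe u v w

variable {L : FirstOrder.Language.{u, v}} {M N : Type w} [L.Structure M] [L.Structure N] {k : ℕ}
variable {G : DefGroup L M k} {e : M ↪ₑ[L] N}

/-- basic clopen sets -/
def basic (G : DefGroup L M k) (e : M ↪ₑ[L] N) (φ : L.Formula (N ⊕ Fin k)) : Set (SGfs G e) :=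
  {p | φ ∈ p.carrier}

theorem isOpen_basic (φ : L.Formula (N ⊕ Fin k)) : IsOpen (basic G e φ) :=
  TopologicalSpace.isOpen_generateFrom_of_mem ⟨φ, rfl⟩

theorem basic_compl (φ : L.Formula (N ⊕ Fin k)) : (basic G e φ)ᶜ = basic G e (∼φ) := by
  ext p
  exact (p.not_mem_iff φ).symm

theorem isClopen_basic (φ : L.Formula (N ⊕ Fin k)) : IsClopen (basic G e φ) := by
  refine ⟨?_, isOpen_basic φ⟩
  rw [← isOpen_compl_iff, basic_compl]
  exact isOpen_basic _

theorem exists_basic {U : Set (SGfs G e)} {p : SGfs G e} (hU : U ∈ 𝓝 p) :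
    ∃ φ : L.Formula (N ⊕ Fin k), φ ∈ p.carrier ∧ basic G e φ ⊆ U := by
  have hB : TopologicalSpace.IsTopologicalBasis
      {U : Set (SGfs G e) | ∃ φ : L.Formula (N ⊕ Fin k), U = {p | φ ∈ p.carrier}} :=
    { exists_subset_inter := by
        rintro _ ⟨φ, rfl⟩ _ ⟨ψ, rfl⟩ p ⟨hp1, hp2⟩
        refine ⟨_, ⟨φ ⊓ ψ, rfl⟩, p.inf_mem_iff.2 ⟨hp1, hp2⟩, ?_⟩
        intro q hq
        exact q.inf_mem_iff.1 hq
      sUnion_eq := by
        rw [eq_univ_iff_forall]
        intro p
        exact ⟨_, ⟨G.dom.relabel Sum.inr, rfl⟩, p.dom_mem⟩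
      eq_generateFrom := rfl }
  obtain ⟨V, ⟨φ, rfl⟩, hpV, hVU⟩ := hB.mem_nhds_iff.1 hU
  exact ⟨φ, hpV, hVU⟩

instance : T2Space (SGfs G e) := by
  refine ⟨fun p q hpq => ?_⟩
  have : ∃ φ, ¬ (φ ∈ p.carrier ↔ φ ∈ q.carrier) := by
    by_contra hcon
    push Not at hcon
    exact hpq (SGfs.ext (Set.ext hcon))
  obtain ⟨φ, hφ⟩ := this
  by_cases h : φ ∈ p.carrier
  · have h' : φ ∉ q.carrier := fun h' => hφ ⟨fun _ => h', fun _ => h⟩
    refine ⟨basic G e φ, (basic G e φ)ᶜ, isOpen_basic _, (isClopen_basic φ).compl.isOpen, h, h', ?_⟩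
    exact disjoint_compl_right
  · have h' : φ ∈ q.carrier := by
      by_contra h'
      exact hφ ⟨fun h1 => absurd h1 h, fun h1 => absurd h1 h'⟩
    refine ⟨(basic G e φ)ᶜ, basic G e φ, (isClopen_basic φ).compl.isOpen, isOpen_basic _, h, h', ?_⟩
    exact disjoint_compl_left

instance : CompactSpace (SGfs G e) := by
  classical
  constructor
  rw [isCompact_iff_ultrafilter_le_nhds]
  intro F _
  let p : SGfs G e :=
    { carrier := {φ | basic G e φ ∈ F}
      complete := by
        intro φ
        simp only [mem_ofPred_eq]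
        rw [← basic_compl]
        exact F.mem_or_compl_mem _
      finSat := by
        intro p₀ hp₀
        have h1 : (⋂ φ ∈ p₀, basic G e φ) ∈ (F : Filter (SGfs G e)) :=
          (Filter.biInter_finset_mem p₀).2 hp₀
        obtain ⟨q, hq⟩ := F.neBot.nonempty_of_mem h1
        rw [mem_iInter₂] at hq
        exact q.finSat p₀ hq
      dom_mem := by
        show basic G e _ ∈ F
        have : basic G e (G.dom.relabel Sum.inr) = Set.univ := by
          rw [eq_univ_iff_forall]
          intro p
          exact p.dom_mem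
        rw [this]
        exact univ_mem }
  refine ⟨p, mem_univ _, ?_⟩
  intro U hU
  obtain ⟨φ, hφ, hU'⟩ := exists_basic hU
  exact mem_of_superset (show basic G e φ ∈ (F : Filter (SGfs G e)) from hφ) hU'

theorem continuous_of_basic {X : Type*} [TopologicalSpace X] {f : X → SGfs G e}
    (h : ∀ φ, IsOpen (f ⁻¹' (basic G e φ))) : Continuous f := by
  rw [continuous_generateFrom_iff]
  rintro _ ⟨φ, rfl⟩
  exact h φ

theorem denseRange_tp : DenseRange (tp e : G.Pt → SGfs G e) := by
  intro p
  rw [mem_closure_iff_nhds]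
  intro U hU
  obtain ⟨φ, hφ, hU'⟩ := exists_basic hU
  obtain ⟨g, hg⟩ := p.exists_pt {φ} (by simpa using hφ)
  exact ⟨tp e g, hU' (hg φ (by simp)), ⟨g, rfl⟩⟩

section op

variable [Nonempty M]

/-- the semigroup operation -/
noncomputable def op (p q : SGfs G e) : SGfs G e := Classical.choose (exists_isProd p q)

theorem isProd_op (p q : SGfs G e) : IsProd p q (op p q) := Classical.choose_spec (exists_isProd p q)

variable (hsat : IsSaturated L (Order.succ #M) N)

include hsat

theorem isProd_iff (p q r : SGfs G e) : IsProd p q r ↔ r = op p q := by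
  constructor
  · intro h
    exact h.unique hsat (isProd_op p q)
  · rintro rfl
    exact isProd_op p q

theorem mem_op_iff (p q : SGfs G e) (φ : L.Formula (N ⊕ Fin k)) {b₀ : Fin k → N}
    (hb : Good q φ b₀) : φ ∈ (op p q).carrier ↔ rightTr G b₀ φ ∈ p.carrier :=
  (isProd_op p q).mem_iff φ hb

theorem mem_tp_op_iff (g : G.Pt) (q : SGfs G e) (φ : L.Formula (N ⊕ Fin k)) :
    φ ∈ (op (tp e g) q).carrier ↔ leftTr G (emb e g) φ ∈ q.carrier := by
  obtain ⟨b₀, hb⟩ := exists_good hsat q φ
  rw [mem_op_iff hsat _ _ _ hb, ← hb.2 g]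
  show holds (rightTr G b₀ φ) (emb e g) ↔ _
  rw [holds_rightTr, holds_leftTr]

theorem continuous_op_right (q : SGfs G e) : Continuous (fun p : SGfs G e => op p q) := by
  apply continuous_of_basic
  intro φ
  obtain ⟨b₀, hb⟩ := exists_good hsat q φ
  have : (fun p : SGfs G e => op p q) ⁻¹' (basic G e φ) = basic G e (rightTr G b₀ φ) := by
    ext p
    exact mem_op_iff hsat p q φ hb
  rw [this]
  exact isOpen_basic _

theorem continuous_op_left (g : G.Pt) : Continuous (fun q : SGfs G e => op (tp e g) q) := by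
  apply continuous_of_basic
  intro φ
  have : (fun q : SGfs G e => op (tp e g) q) ⁻¹' (basic G e φ) =
      basic G e (leftTr G (emb e g) φ) := by
    ext q
    exact mem_tp_op_iff hsat g q φ
  rw [this]
  exact isOpen_basic _

theorem tp_op_tp (g h : G.Pt) : op (tp e g) (tp e h) = tp e (g * h) := by
  apply SGfs.ext
  ext φ
  rw [mem_tp_op_iff hsat]
  exact holds_leftTr_pt g h φ

theorem tp_one_op (q : SGfs G e) : op (tp e (1 : G.Pt)) q = q := by
  apply SGfs.ext
  ext φ
  rw [mem_tp_op_iff hsat]
  apply q.mem_congr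
  intro h
  rw [holds_leftTr_pt, one_mul]

theorem op_assoc (p q r : SGfs G e) : op (op p q) r = op p (op q r) := by
  -- tp g * (tp h * r) = (tp g * tp h) * r
  have h1 : ∀ (g h : G.Pt) (r : SGfs G e), op (op (tp e g) (tp e h)) r = op (tp e g) (op (tp e h) r) := by
    intro g h r
    have c1 : Continuous (fun r : SGfs G e => op (op (tp e g) (tp e h)) r) := by
      rw [tp_op_tp hsat]
      exact continuous_op_left hsat _
    have c2 : Continuous (fun r : SGfs G e => op (tp e g) (op (tp e h) r)) :=
      (continuous_op_left hsat g).comp (continuous_op_left hsat h)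
    refine congrFun (DenseRange.equalizer (denseRange_tp (G := G) (e := e)) c1 c2 ?_) r
    funext l
    simp only [Function.comp]
    rw [tp_op_tp hsat, tp_op_tp hsat, tp_op_tp hsat, tp_op_tp hsat, mul_assoc]
  have h2 : ∀ (g : G.Pt) (q r : SGfs G e), op (op (tp e g) q) r = op (tp e g) (op q r) := by
    intro g q r
    have c1 : Continuous (fun q : SGfs G e => op (op (tp e g) q) r) :=
      (continuous_op_right hsat r).comp (continuous_op_left hsat g)
    have c2 : Continuous (fun q : SGfs G e => op (tp e g) (op q r)) :=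
      (continuous_op_left hsat g).comp (continuous_op_right hsat r)
    refine congrFun (DenseRange.equalizer (denseRange_tp (G := G) (e := e)) c1 c2 ?_) q
    funext l
    exact h1 g l r
  have c1 : Continuous (fun p : SGfs G e => op (op p q) r) :=
    (continuous_op_right hsat r).comp (continuous_op_right hsat q)
  have c2 : Continuous (fun p : SGfs G e => op p (op q r)) := continuous_op_right hsat _
  refine congrFun (DenseRange.equalizer (denseRange_tp (G := G) (e := e)) c1 c2 ?_) p
  funext l
  exact h2 l q r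

/-- the semigroup structure -/
@[reducible] noncomputable def semi : Semigroup (SGfs G e) where
  mul := op
  mul_assoc := op_assoc hsat

theorem dyn : @TauDyn.Dyn (SGfs G e) _ (semi hsat) G.Pt _ (tp e) :=
  letI := semi (G := G) (e := e) hsat
  { cont_right := fun q => continuous_op_right hsat q
    cont_left := fun g => continuous_op_left hsat g
    map_mul := fun g h => tp_op_tp hsat g h
    one_mul := fun q => tp_one_op hsat q
    dense := denseRange_tp }

end op

end Pool.Agent.H55.Tau
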