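import Pool.Agent.H55.TauTools

open FirstOrder FirstOrder.Language Set Filter Topology Cardinal

namespace Pool.Agent.H55.Tau

set_option linter.unusedSectionVars false
set_option linter.unusedVariables false

universe u v w

variable {L : FirstOrder.Language.{u, v}} {M N : Type w} [L.Structure M] [L.Structure N] {k : ℕ}
variable {G : DefGroup L M k} {e : M ↪ₑ[L] N}

/-- the tuple of `N` given by `g ∈ G(M)` -/
def emb (e : M ↪ₑ[L] N) (g : G.Pt) : Fin k → N := fun i => e (g.1 i)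

/-- truth in `N` of a formula over `N` -/
def holds (φ : L.Formula (N ⊕ Fin k)) (x : Fin k → N) : Prop :=
  φ.Realize (Sum.elim (fun n : N => n) x)

theorem holds_not (φ : L.Formula (N ⊕ Fin k)) (x : Fin k → N) : holds (∼φ) x ↔ ¬ holds φ x :=
  Formula.realize_not

theorem holds_inf (φ ψ : L.Formula (N ⊕ Fin k)) (x : Fin k → N) :
    holds (φ ⊓ ψ) x ↔ holds φ x ∧ holds ψ x :=
  Formula.realize_inf

theorem holds_dom (x : Fin k → N) : holds (G.dom.relabel Sum.inr : L.Formula (N ⊕ Fin k)) x ↔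
    G.dom.Realize x := by
  unfold holds
  rw [Formula.realize_relabel]
  rfl

theorem dom_emb (g : G.Pt) : G.dom.Realize (emb e g) := (e.map_formula G.dom g.1).2 g.2

theorem mul_emb (g h : G.Pt) :
    G.mul.Realize (Sum.elim (emb e g) (Sum.elim (emb e h) (emb e (g * h)))) := by
  have h1 : G.mul.Realize (Sum.elim g.1 (Sum.elim h.1 (g * h).1)) :=
    (G.mul_iff g h (g * h)).2 rfl
  have h2 := (e.map_formula G.mul _).2 h1
  rw [Sum.comp_elim, Sum.comp_elim] at h2
  exact h2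

theorem eq_of_mul_emb {g h : G.Pt} {z : Fin k → N} (hz : G.dom.Realize z)
    (hz' : G.mul.Realize (Sum.elim (emb e g) (Sum.elim (emb e h) z))) : z = emb e (g * h) := by
  obtain ⟨w, -, hw⟩ := exists_unique_mul G e (emb e g) (emb e h) (dom_emb g) (dom_emb h)
  rw [hw z ⟨hz, hz'⟩, hw _ ⟨dom_emb (g * h), mul_emb g h⟩]

theorem holds_leftTr (y : Fin k → N) (φ : L.Formula (N ⊕ Fin k)) (x : Fin k → N) :
    holds (leftTr G y φ) x ↔ ∃ z : Fin k → N, G.dom.Realize z ∧
      G.mul.Realize (Sum.elim y (Sum.elim x z)) ∧ holds φ z :=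
  realize_leftTr y φ _ x

theorem holds_rightTr (b : Fin k → N) (φ : L.Formula (N ⊕ Fin k)) (y : Fin k → N) :
    holds (rightTr G b φ) y ↔ ∃ z : Fin k → N, G.dom.Realize z ∧
      G.mul.Realize (Sum.elim y (Sum.elim b z)) ∧ holds φ z :=
  realize_rightTr b φ _ y

theorem holds_leftTr_pt (g h : G.Pt) (φ : L.Formula (N ⊕ Fin k)) :
    holds (leftTr G (emb e g) φ) (emb e h) ↔ holds φ (emb e (g * h)) := by
  rw [holds_leftTr]
  constructor
  · rintro ⟨z, hz, hz', hφ⟩
    rwa [eq_of_mul_emb hz hz'] at hφ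
  · intro hφ
    exact ⟨_, dom_emb _, mul_emb g h, hφ⟩

theorem holds_leftTr_not (y : Fin k → N) (φ : L.Formula (N ⊕ Fin k)) (x : Fin k → N)
    (hy : G.dom.Realize y) (hx : G.dom.Realize x) (e : M ↪ₑ[L] N) :
    holds (leftTr G y (∼φ)) x ↔ ¬ holds (leftTr G y φ) x := by
  obtain ⟨w, ⟨hw1, hw2⟩, hw⟩ := exists_unique_mul G e y x hy hx
  rw [holds_leftTr, holds_leftTr]
  constructor
  · rintro ⟨z, hz, hz', hφ⟩ ⟨z2, hz2, hz2', hφ2⟩
    rw [hw z ⟨hz, hz'⟩, holds_not] at hφ
    rw [hw z2 ⟨hz2, hz2'⟩] at hφ2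
    exact hφ hφ2
  · intro h
    refine ⟨w, hw1, hw2, ?_⟩
    rw [holds_not]
    intro h'
    exact h ⟨w, hw1, hw2, h'⟩

namespace SGfs

theorem not_mem_iff (p : SGfs G e) (φ : L.Formula (N ⊕ Fin k)) :
    ∼φ ∈ p.carrier ↔ φ ∉ p.carrier := by
  classical
  constructor
  · intro h h'
    obtain ⟨x, hx⟩ := p.finSat {φ, ∼φ} (by
      intro ψ hψ
      rw [Finset.mem_insert, Finset.mem_singleton] at hψ
      rcases hψ with rfl | rfl
      · exact h'
      · exact h)
    have h1 := hx φ (by simp)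
    have h2 := hx (∼φ) (by simp)
    rw [Formula.realize_not] at h2
    exact h2 h1
  · intro h
    exact (p.complete φ).resolve_left h

theorem exists_pt (p : SGfs G e) (p₀ : Finset (L.Formula (N ⊕ Fin k)))
    (h : ∀ φ ∈ p₀, φ ∈ p.carrier) : ∃ g : G.Pt, ∀ φ ∈ p₀, holds φ (emb e g) := by
  classical
  obtain ⟨x, hx⟩ := p.finSat (insert (G.dom.relabel Sum.inr) p₀) (by
    intro φ hφ
    rw [Finset.mem_insert] at hφ
    rcases hφ with rfl | hφ
    · exact p.dom_mem
    · exact h φ hφ)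
  have h1 : G.dom.Realize (fun i => e (x i)) :=
    (holds_dom (G := G) (fun i => e (x i))).1 (hx _ (Finset.mem_insert_self _ _))
  have h2 : G.dom.Realize x := (e.map_formula G.dom x).1 h1
  exact ⟨⟨x, h2⟩, fun φ hφ => hx φ (Finset.mem_insert_of_mem hφ)⟩

theorem mem_of_forall (p : SGfs G e) (p₀ : Finset (L.Formula (N ⊕ Fin k)))
    (h : ∀ φ ∈ p₀, φ ∈ p.carrier) (ψ : L.Formula (N ⊕ Fin k))
    (hψ : ∀ g : G.Pt, (∀ φ ∈ p₀, holds φ (emb e g)) → holds ψ (emb e g)) : ψ ∈ p.carrier := by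
  classical
  by_contra hcon
  obtain ⟨g, hg⟩ := p.exists_pt (insert (∼ψ) p₀) (by
    intro φ hφ
    rw [Finset.mem_insert] at hφ
    rcases hφ with rfl | hφ
    · exact (p.not_mem_iff ψ).2 hcon
    · exact h φ hφ)
  have h1 := hg (∼ψ) (Finset.mem_insert_self _ _)
  rw [holds_not] at h1
  exact h1 (hψ g fun φ hφ => hg φ (Finset.mem_insert_of_mem hφ))

theorem mem_congr (p : SGfs G e) {φ ψ : L.Formula (N ⊕ Fin k)}
    (h : ∀ g : G.Pt, holds φ (emb e g) ↔ holds ψ (emb e g)) : φ ∈ p.carrier ↔ ψ ∈ p.carrier := by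
  constructor
  · intro hφ
    exact p.mem_of_forall {φ} (by simpa using hφ) ψ (fun g hg => (h g).1 (hg φ (by simp)))
  · intro hφ
    exact p.mem_of_forall {ψ} (by simpa using hφ) φ (fun g hg => (h g).2 (hg ψ (by simp)))

theorem inf_mem_iff (p : SGfs G e) {φ ψ : L.Formula (N ⊕ Fin k)} :
    φ ⊓ ψ ∈ p.carrier ↔ φ ∈ p.carrier ∧ ψ ∈ p.carrier := by
  classical
  constructor
  · intro h
    refine ⟨p.mem_of_forall {φ ⊓ ψ} (by simpa using h) φ ?_,
      p.mem_of_forall {φ ⊓ ψ} (by simpa using h) ψ ?_⟩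
    · intro g hg
      exact ((holds_inf φ ψ _).1 (hg (φ ⊓ ψ) (by simp))).1
    · intro g hg
      exact ((holds_inf φ ψ _).1 (hg (φ ⊓ ψ) (by simp))).2
  · rintro ⟨h1, h2⟩
    refine p.mem_of_forall {φ, ψ} ?_ _ ?_
    · intro χ hχ
      rw [Finset.mem_insert, Finset.mem_singleton] at hχ
      rcases hχ with rfl | rfl
      · exact h1
      · exact h2
    · intro g hg
      exact (holds_inf _ _ _).2 ⟨hg _ (by simp), hg _ (by simp)⟩

theorem leftTr_not_mem (q : SGfs G e) (g : G.Pt) (φ : L.Formula (N ⊕ Fin k)) :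
    leftTr G (emb e g) (∼φ) ∈ q.carrier ↔ leftTr G (emb e g) φ ∉ q.carrier := by
  rw [← q.not_mem_iff]
  apply q.mem_congr
  intro h
  rw [holds_leftTr_not _ _ _ (dom_emb g) (dom_emb h) e, holds_not]

end SGfs

/-- `b₀ ∈ N` realises the restriction of `q` to `M` and the parameters of `φ`, as far as the
formulas `φ(g · x)` are concerned. -/
def Good (q : SGfs G e) (φ : L.Formula (N ⊕ Fin k)) (b₀ : Fin k → N) : Prop :=
  G.dom.Realize b₀ ∧
    ∀ g : G.Pt, holds (leftTr G (emb e g) φ) b₀ ↔ leftTr G (emb e g) φ ∈ q.carrier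

theorem Good.not {q : SGfs G e} {φ : L.Formula (N ⊕ Fin k)} {b₀ : Fin k → N} (h : Good q φ b₀) :
    Good q (∼φ) b₀ := by
  refine ⟨h.1, fun g => ?_⟩
  rw [holds_leftTr_not _ _ _ (dom_emb g) h.1 e, h.2 g, q.leftTr_not_mem]

theorem exists_good_of_finite [Finite M] (q : SGfs G e) (φ : L.Formula (N ⊕ Fin k)) :
    ∃ b₀, Good q φ b₀ := by
  classical
  have h1 : ∃ x : Fin k → M, ∀ φ ∈ q.carrier, holds φ (fun i => e (x i)) := by
    by_contra hcon
    push Not at hcon
    choose f hf hf' using hcon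
    have := Fintype.ofFinite (Fin k → M)
    obtain ⟨x, hx⟩ := q.finSat (Finset.univ.image f) (by
      intro φ hφ
      rw [Finset.mem_image] at hφ
      obtain ⟨x, -, rfl⟩ := hφ
      exact hf x)
    exact hf' x (hx (f x) (Finset.mem_image_of_mem _ (Finset.mem_univ _)))
  obtain ⟨x, hx⟩ := h1
  refine ⟨fun i => e (x i), (holds_dom _).1 (hx _ q.dom_mem), fun g => ?_⟩
  constructor
  · intro h
    by_contra hcon
    have h2 := hx _ ((q.not_mem_iff _).2 hcon)
    rw [holds_not] at h2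
    exact h2 h
  · intro h
    exact hx _ h

theorem exists_good_of_infinite [Infinite M] (hsat : IsSaturated L (Order.succ #M) N)
    (q : SGfs G e) (φ : L.Formula (N ⊕ Fin k)) : ∃ b₀, Good q φ b₀ := by
  classical
  set A : Set N := Set.range e ∪ {n : N | Sum.inl n ∈ φ.freeVarFinset} with hA
  have hfin : {n : N | (Sum.inl n : N ⊕ Fin k) ∈ φ.freeVarFinset}.Finite := by
    have : {n : N | (Sum.inl n : N ⊕ Fin k) ∈ φ.freeVarFinset} =
      Sum.inl ⁻¹' (φ.freeVarFinset : Set (N ⊕ Fin k)) := rfl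
    rw [this]
    exact (Finset.finite_toSet _).preimage Sum.inl_injective.injOn
  have hcard : #A < Order.succ #M := by
    rw [Order.lt_succ_iff]
    refine (mk_union_le _ _).trans ?_
    have h1 : #(Set.range e) ≤ #M := mk_range_le
    have h2 : #{n : N | (Sum.inl n : N ⊕ Fin k) ∈ φ.freeVarFinset} ≤ #M :=
      (hfin.lt_aleph0.le).trans (aleph0_le_mk M)
    exact (add_le_add h1 h2).trans (add_eq_self (aleph0_le_mk M)).le
  -- the restriction of q to A
  set p : Set (L.Formula (A ⊕ Fin k)) :=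
    {ψ | ψ.relabel (Sum.map (fun a : A => (a : N)) id) ∈ q.carrier} with hp
  have hrel : ∀ (ψ : L.Formula (A ⊕ Fin k)) (x : Fin k → N),
      holds (ψ.relabel (Sum.map (fun a : A => (a : N)) id)) x ↔
        ψ.Realize (Sum.elim (fun a : A => (a : N)) x) := by
    intro ψ x
    unfold holds
    rw [Formula.realize_relabel]
    have : (Sum.elim (fun n : N => n) x) ∘ (Sum.map (fun a : A => (a : N)) id) =
      Sum.elim (fun a : A => (a : N)) x := by
      funext i; rcases i with i | i <;> rfl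
    rw [this]
  obtain ⟨b₀, hb₀⟩ := hsat A hcard k p (by
    intro p₀ hp₀
    obtain ⟨x, hx⟩ := q.finSat (p₀.image (fun ψ => ψ.relabel (Sum.map (fun a : A => (a : N)) id))) (by
      intro ψ hψ
      rw [Finset.mem_image] at hψ
      obtain ⟨χ, hχ, rfl⟩ := hψ
      exact hp₀ χ hχ)
    refine ⟨fun i => e (x i), fun ψ hψ => ?_⟩
    exact (hrel ψ _).1 (hx _ (Finset.mem_image_of_mem _ hψ)))
  have hdom : G.dom.Realize b₀ := by
    have h1 : (G.dom.relabel Sum.inr : L.Formula (A ⊕ Fin k)) ∈ p := by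
      show _ ∈ q.carrier
      refine (q.mem_congr (fun g => ?_)).1 q.dom_mem
      rw [holds_dom, hrel, Formula.realize_relabel]
      exact Iff.rfl
    have h2 := hb₀ _ h1
    rw [Formula.realize_relabel] at h2
    exact h2
  refine ⟨b₀, hdom, fun g => ?_⟩
  -- φ as formula over A
  let f : φ.freeVarFinset → A ⊕ Fin k := fun s =>
    match s with
    | ⟨Sum.inl n, h⟩ => Sum.inl ⟨n, Or.inr h⟩
    | ⟨Sum.inr i, _⟩ => Sum.inr i
  set φA : L.Formula (A ⊕ Fin k) := φ.restrictFreeVar f with hφA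
  have hφAr : ∀ x : Fin k → N, φA.Realize (Sum.elim (fun a : A => (a : N)) x) ↔ holds φ x := by
    intro x
    apply BoundedFormula.realize_restrictFreeVar (Sum.elim (fun n : N => n) x)
    rintro ⟨s | s, hs⟩ <;> rfl
  set gA : Fin k → A := fun i => ⟨emb e g i, Or.inl ⟨g.1 i, rfl⟩⟩ with hgA
  have h3 : ∀ x : Fin k → N, (leftTr G gA φA).Realize (Sum.elim (fun a : A => (a : N)) x) ↔
      holds (leftTr G (emb e g) φ) x := by
    intro x
    rw [realize_leftTr, holds_leftTr]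
    apply exists_congr
    intro z
    rw [hφAr]
  have h4 : leftTr G (emb e g) φ ∈ q.carrier ↔ leftTr G gA φA ∈ p := by
    apply q.mem_congr
    intro h
    rw [hrel, h3]
  have h5 : ∼(leftTr G gA φA) ∈ p ↔ leftTr G gA φA ∉ p := by
    show _ ∈ q.carrier ↔ _ ∉ q.carrier
    rw [← q.not_mem_iff]
    apply q.mem_congr
    intro h
    rw [hrel, Formula.realize_not, holds_not, hrel]
  rw [h4, ← h3]
  constructor
  · intro h
    by_contra hcon
    have := hb₀ _ (h5.2 hcon)
    rw [Formula.realize_not] at this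
    exact this h
  · intro h
    exact hb₀ _ h

theorem exists_good (hsat : IsSaturated L (Order.succ #M) N)
    (q : SGfs G e) (φ : L.Formula (N ⊕ Fin k)) : ∃ b₀, Good q φ b₀ := by
  rcases finite_or_infinite M with h | h
  · exact exists_good_of_finite q φ
  · exact exists_good_of_infinite hsat q φ

end Pool.Agent.H55.Tau
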